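import Pool.Agent.K7.H53.LD.Good
import Pool.Agent.K7.H53.CE.Out

/-!
# Covers: the action through a complement
-/

set_option autoImplicit false
set_option linter.unusedSectionVars false

namespace Pool.Agent.K7.H53.LD

open Pool.Agent.H391R2 (Wr wrMap wr_mul_left wr_mul_right)
open Pool.Agent.TH59.WX (Indec)
open Pool.Agent.TH444.TW (powAct LocK RSK pow_rsk exists_sdEquiv)
open Pool.Agent.K7.H53.CE

/-- `π : W' → W` is the projection of a semidirect product `A^k ⋊ W`, where `W` acts through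
a homomorphism to the wreath product of `B` and the symmetric group, and `B` acts on `A` by `c`. -/
def IsCPower {A B : Type} [Group A] [Group B] (c : B →* MulAut A) {W W' : Type} [Group W]
    [Group W'] (π : W' →* W) : Prop :=
  ∃ (k : ℕ) (ψ : W →* Wr B k) (ι : (Fin k → A) →* W') (s : W →* W'),
    Function.Injective ι ∧ ι.range = π.ker ∧ (∀ w, π (s w) = w) ∧
    ∀ w x, s w * ι x = ι (fun i => c ((ψ w).left i) (x ((ψ w).right⁻¹ i))) * s w

theorem cPower_rsk (K : Type) [Field K] {A B : Type} [Group A] [Group B]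
    [Finite A] (c : B →* MulAut A) (hA : LocK K c) {W W' : Type} [Group W] [Finite W] [Group W']
    (π : W' →* W) (hp : IsCPower c π) : RSK K π := by
  obtain ⟨k, ψ, ι, s, hι, hr, hs, hc⟩ := hp
  obtain ⟨e, he⟩ := exists_sdEquiv ((powAct c k).comp ψ) π ι s hι hr hs hc
  refine RSK.congr (pow_rsk c ψ hA) e.symm fun x => ?_
  obtain ⟨y, rfl⟩ := e.surjective x
  rw [MulEquiv.symm_apply_apply]
  exact (he y).symm

/-- The retraction to a complement of the inner automorphisms. -/
theorem exists_retC {A : Type} [Group A] (I : Subgroup A) [I.Normal] (C : Subgroup A)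
    (hC : IsCompl C I) :
    ∃ ε : A →* A, (∀ a, ε (ε a) = ε a) ∧ (∀ a ∈ I, ε a = 1) ∧ (∀ a, ε a * a⁻¹ ∈ I) ∧
      ∀ a, ε a ∈ C := by
  have h1 : ∀ a : A, ∃ c ∈ C, ∃ i ∈ I, c * i = a := by
    intro a
    have h2 : a ∈ C ⊔ I := by
      rw [hC.sup_eq_top]
      exact Subgroup.mem_top a
    exact Subgroup.mem_sup_of_normal_right.1 h2
  choose c hc i hi hci using h1
  have huniq : ∀ a x y, x ∈ C → y ∈ I → x * y = a → c a = x := by
    intro a x y hx hy hxy
    have h2 : (c a)⁻¹ * x ∈ C ⊓ I := by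
      refine Subgroup.mem_inf.2 ⟨C.mul_mem (C.inv_mem (hc a)) hx, ?_⟩
      have h3 : (c a)⁻¹ * x = i a * y⁻¹ := by
        rw [inv_mul_eq_iff_eq_mul, ← mul_assoc, hci, ← hxy, mul_inv_cancel_right]
      rw [h3]
      exact I.mul_mem (hi a) (I.inv_mem hy)
    rw [hC.inf_eq_bot, Subgroup.mem_bot] at h2
    exact inv_mul_eq_one.1 h2
  refine ⟨MonoidHom.mk' c fun a b => ?_, ?_, ?_, ?_, hc⟩
  · refine huniq (a * b) _ ((c b)⁻¹ * i a * c b * i b) (mul_mem (hc a) (hc b)) ?_ ?_
    · refine mul_mem ?_ (hi b)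
      have h3 := ‹I.Normal›.conj_mem (i a) (hi a) (c b)⁻¹
      rwa [inv_inv] at h3
    · have h4 : c a * c b * ((c b)⁻¹ * i a * c b * i b) = c a * i a * (c b * i b) := by
        simp only [mul_assoc, mul_inv_cancel_left]
      rw [h4, hci, hci]
  · intro a
    exact huniq (c a) (c a) 1 (hc a) (one_mem I) (mul_one _)
  · intro a ha
    exact huniq a 1 a (one_mem C) ha (one_mul a)
  · intro a
    change c a * a⁻¹ ∈ I
    have h3 : c a * a⁻¹ = c a * (i a)⁻¹ * (c a)⁻¹ := by
      conv_lhs => rw [← hci a]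
      rw [mul_inv_rev, ← mul_assoc]
      congr 3
      rw [hci]
    rw [h3]
    exact ‹I.Normal›.conj_mem _ (inv_mem (hi a)) _

section sup

variable {G Γ : Type} [Group G] [Finite G] [Group Γ]
  (α : G →* Γ) (M : Subgroup Γ) [hMn : M.Normal] {T : Type} [Group T] [Finite T] {m : ℕ}
  (hI : Indec T) (hN : Nontrivial T) (e : M ≃* (Fin m → T))
  (ε : MulAut T →* MulAut T)

/-- **The case of a cover.** -/
theorem of_HTL {T' : Type} [Group T'] [Finite T'] {ρ : T' →* T} {C : ℕ → Prop} (hcov : IsCov C ρ)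
    (hC : ∀ a b, a ∣ b → C b → C a)
    (hε2 : ∀ a, ε (ε a) = ε a)
    (hε3 : ∀ a, ε a * a⁻¹ ∈ (MulAut.conj : T →* MulAut T).range)
    (hα : Function.Surjective α) (hc : α.ker ≤ Subgroup.center G)
    (hn : C (Nat.card α.ker)) (L : MulAut T →* MulAut T') (hL : ∀ a t, ρ (L a t) = a (ρ t)) :
    ∃ (Y : Type) (_ : Group Y) (_ : Finite Y) (q : Y →* G) (r : Y →* HT α M hI hN e ε),
      Function.Surjective q ∧ IsCPower (L.comp ε.range.subtype) r ∧ ∀ x, ∃ ν, α ν ∈ M ∧ q x = ν * r x := by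
  let N : Subgroup G := M.comap α
  let f : N →* (Fin m → T) :=
    e.toMonoidHom.comp ((α.comp N.subtype).codRestrict M (fun x => x.2))
  have hf : ∀ x : N, f x = e ⟨α x, x.2⟩ := fun x => rfl
  have hfs : Function.Surjective f := by
    intro y
    obtain ⟨g, hg⟩ := hα (e.symm y : M)
    have hgM : α g ∈ M := by
      rw [hg]
      exact (e.symm y).2
    refine ⟨⟨g, hgM⟩, ?_⟩
    rw [hf]
    have h3 : (⟨α g, hgM⟩ : M) = e.symm y := Subtype.ext hg
    change e ⟨α g, hgM⟩ = y
    rw [h3, MulEquiv.apply_symm_apply]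
  have hfk : ∀ x : N, x ∈ f.ker → α x = 1 := by
    intro x hx
    rw [MonoidHom.mem_ker, hf] at hx
    exact congrArg Subtype.val ((map_eq_one_iff e e.injective).1 hx)
  have hfc : f.ker ≤ Subgroup.center N := by
    intro x hx
    rw [Subgroup.mem_center_iff]
    intro y
    exact Subtype.ext (Subgroup.mem_center_iff.1 (hc (hfk x hx)) y)
  let τ : f.ker →* α.ker := (N.subtype.comp f.ker.subtype).codRestrict α.ker fun x => hfk x x.2
  have hτ : Function.Injective τ := by
    intro x y hxy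
    exact Subtype.ext (Subtype.ext (congrArg (fun t : α.ker => (t : G)) hxy))
  obtain ⟨Φ, hΦ⟩ := hcov.exists_pow hC f hfs hfc (hC _ _ (Subgroup.card_dvd_of_injective τ hτ) hn)
  let H := HT α M hI hN e ε
  let ψ : H →* Wr (MulAut T) m := (wT α M hI hN e).comp H.subtype
  have hψε : ∀ (h : H) (i : Fin m), ε ((ψ h).left i) = (ψ h).left i := fun h i =>
    (congrArg (fun w : Wr (MulAut T) m => w.left i)
      (show wT α M hI hN e (h : G) = wrMap ε m (wT α M hI hN e (h : G)) from h.2)).symm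
  let ψ' : H →* Wr ε.range m := (wrMap ε.rangeRestrict m).comp ψ
  let act : H →* MulAut (Fin m → T') := (powAct (L.comp ε.range.subtype) m).comp ψ'
  have hact : ∀ (h : H) (a : Fin m → T') (i : Fin m),
      act h a i = L ((ψ h).left i) (a ((ψ h).right⁻¹ i)) := fun h a i => by
    have h3 : act h a i = L (ε ((ψ h).left i)) (a ((ψ h).right⁻¹ i)) := rfl
    rw [h3, hψε]
  have hfinSD : Finite ((Fin m → T') ⋊[act] H) :=
    Finite.of_equiv _ SemidirectProduct.equivProd.symm
  have hsd : IsCPower (L.comp ε.range.subtype) (SemidirectProduct.rightHom : ((Fin m → T') ⋊[act] H) →* H) := by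
    refine ⟨m, ψ', SemidirectProduct.inl, SemidirectProduct.inr,
      SemidirectProduct.inl_injective, SemidirectProduct.range_inl_eq_ker_rightHom,
      fun w => SemidirectProduct.rightHom_inr w, fun w x => ?_⟩
    have h3 := SemidirectProduct.inl_aut (φ := act) w x
    have h4 : act w x = fun i => (L.comp ε.range.subtype) ((ψ' w).left i)
      (x ((ψ' w).right⁻¹ i)) := rfl
    rw [← h4, h3, map_inv, inv_mul_cancel_right]
  have hΦa : ∀ x, α (Φ x) = (e.symm (fun i => ρ (x i)) : M) := by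
    intro x
    have h3 : e ⟨α (Φ x), (Φ x).2⟩ = fun i => ρ (x i) := funext fun i => hΦ x i
    rw [← h3, MulEquiv.symm_apply_apply]
  let q : ((Fin m → T') ⋊[act] H) →* G :=
    SemidirectProduct.lift (N.subtype.comp Φ) H.subtype (fun h => by
      refine pi_hom_eq hcov.perf _ _ fun a => hc ?_
      rw [MonoidHom.mem_ker]
      change α ((Φ (act h a) : G)⁻¹ * ((h : G) * Φ a * (h : G)⁻¹)) = 1
      rw [map_mul, map_inv, inv_mul_eq_one, map_mul, map_mul, map_inv, hΦa, hΦa]
      have h3 := cT_apply α M e (h : G) (e.symm (fun i => ρ (a i)))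
      rw [MulEquiv.apply_symm_apply] at h3
      have h4 : (fun i => ρ (act h a i)) = cT α M e (h : G) (fun i => ρ (a i)) := by
        funext i
        rw [wT_rel α M hI hN e (h : G) _ i, hact, hL]
        rfl
      rw [h4, h3, MulEquiv.symm_apply_apply])
  refine ⟨(Fin m → T') ⋊[act] H, inferInstance, hfinSD, q, SemidirectProduct.rightHom, ?_, hsd,
    fun x => ⟨(Φ x.left : G), (Φ x.left).2, rfl⟩⟩
  intro g
  obtain ⟨ν, hν, h, hh, rfl⟩ := HT_sup α M hI hN e ε hε2 hε3 hα g
  choose x hx using fun i => hcov.surj (f ⟨ν, hν⟩ i)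
  have h3 : f (Φ x) = f ⟨ν, hν⟩ := by
    funext i
    rw [hΦ, hx]
  have h4 : α ((Φ x : G)⁻¹ * ν) = 1 := by
    have h5' : (Φ x)⁻¹ * ⟨ν, hν⟩ ∈ f.ker := by
      rw [MonoidHom.mem_ker, map_mul, map_inv, h3, inv_mul_cancel]
    exact hfk _ h5'
  refine ⟨⟨x, ⟨(Φ x : G)⁻¹ * ν * h, mul_mem (ker_le_HT α M hI hN e ε h4) hh⟩⟩, ?_⟩
  change (Φ x : G) * ((Φ x : G)⁻¹ * ν * h) = ν * h
  rw [mul_assoc, mul_inv_cancel_left]

end sup

end Pool.Agent.K7.H53.LD
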