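import Pool.Agent.K7.H53.CE.Defs

/-!
# Groups of Lie type in characteristic `p`: definitions

An affine group scheme `G` of finite type over the field `k` with `p` elements is given by its
coordinate ring `A`, a commutative Hopf algebra over `k`. Its points with values in a commutative
algebra `B` are the homomorphisms `t : A → B`, with the multiplication `mulPt`.

* `Rational k x`: the field of fractions of the domain `A` is `k(x)` with algebraically independent
  elements `x j`.
* `IsEndo f`: the homomorphism `f : A → A` is the comorphism of an endomorphism of `G`.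
* `FixedPoints φ θ τ`: the group `N` is identified by `τ` with the group of all points
  `t : A → F` with `t ∘ φ = θ ∘ t`.
* `Geometric p c`: the group `N` is of this form (`A` rational, `F` a finite field or a finite product
  of finite fields, `φ` and `θ` roots of the Frobenius maps of `A` and `F`), and the group `B` acts
  on `N` by `c` through automorphisms of `G` and `F`.
* `IsLie p T`: the group `T` is a quotient of such a group, and the inner automorphisms of `T` have
  a complement in `Aut T` which comes from such an action.
* `FactorL p T`, `StepL p π`: the composition factors and the class of homomorphisms.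
-/

set_option autoImplicit false

open TensorProduct
open Pool.Agent.H391R2 (Wr)
open Pool.Agent.Y60.DC (CompIn)
open Pool.Agent.Y60.DCF (IsComplInn IsSection ConjTo)
open Pool.Agent.K7.H53.MA (FactorA)
open Pool.Agent.K7.H53.CE (FactorZ NoCover)

namespace Pool.Agent.K7.H53.LD

/-! ### Affine group schemes -/

/-- The product of two points `s`, `t` of the group scheme with coordinate ring `A`: the composition
of the comultiplication `A → A ⊗ A` and the homomorphism `a ⊗ b ↦ s a * t b`. -/
noncomputable def mulPt {k A B : Type} [Field k] [CommRing A] [HopfAlgebra k A] [CommRing B]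
    [Algebra k B] (s t : A →ₐ[k] B) : A →ₐ[k] B :=
  (Algebra.TensorProduct.lift s t fun _ _ => Commute.all _ _).comp (Bialgebra.comulAlgHom k A)

/-- The homomorphism `f : A → A` is compatible with the comultiplication `Δ`:
`Δ ∘ f = (f ⊗ f) ∘ Δ`. -/
def IsEndo {k A : Type} [Field k] [CommRing A] [HopfAlgebra k A] (f : A →ₐ[k] A) : Prop :=
  (Bialgebra.comulAlgHom k A).comp f =
    (Algebra.TensorProduct.map f f).comp (Bialgebra.comulAlgHom k A)

/-- The elements `x j` are algebraically independent over `k`, and they generate the field of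
fractions of `A` over `k`. -/
def Rational (k : Type) {A I : Type} [Field k] [CommRing A] [IsDomain A] [Algebra k A]
    (x : I → FractionRing A) : Prop :=
  AlgebraicIndependent k x ∧ IntermediateField.adjoin k (Set.range x) = ⊤

/-- The extension `E` of the automorphism `ω` of `A` to the field of fractions maps the elements
`x j` to linear combinations of the elements `x i` with coefficients in `k`. -/
def Linear {k A I : Type} [Field k] [CommRing A] [IsDomain A] [Algebra k A]
    (x : I → FractionRing A) (ω : A ≃ₐ[k] A) : Prop :=
  ∃ E : FractionRing A ≃+* FractionRing A,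
    (∀ a, E (algebraMap A (FractionRing A) a) = algebraMap A (FractionRing A) (ω a)) ∧
    ∀ j, E (x j) ∈ Submodule.span k (Set.range x)

/-- `φ` is the comorphism of an endomorphism of the group scheme, and for some `m` the powers `φ ^ m`
and `θ ^ m` are the Frobenius maps `a ↦ a ^ p` of `A` and `F`. (Example: `m = 1`. For the Suzuki and
Ree groups `m = 2`.) -/
def RootsOfFrobenius (p : ℕ) [Fact p.Prime] {A F : Type} [CommRing A] [HopfAlgebra (ZMod p) A]
    [CommRing F] [Algebra (ZMod p) F] (φ : A →ₐ[ZMod p] A) (θ : F ≃ₐ[ZMod p] F) : Prop :=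
  IsEndo φ ∧ ∃ m : ℕ, (∀ a, φ^[m] a = a ^ p) ∧ ∀ r, θ^[m] r = r ^ p

/-- `τ` is an isomorphism of the group `N` with the group of all points `t : A → F` such that
`t (φ a) = θ (t a)`. For the Frobenius maps `φ` and `θ` these are all points with values in `F`. -/
def FixedPoints {k A F N : Type} [Field k] [CommRing A] [HopfAlgebra k A] [CommRing F]
    [Algebra k F] [Group N] (φ : A →ₐ[k] A) (θ : F ≃ₐ[k] F) (τ : N → (A →ₐ[k] F)) : Prop :=
  Function.Injective τ ∧ (∀ n n' : N, τ (n * n') = mulPt (τ n) (τ n')) ∧
    ∀ t : A →ₐ[k] F, (∃ n, τ n = t) ↔ ∀ a, t (φ a) = θ (t a)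

/-- `ω` is an automorphism of the group scheme which commutes with `φ` and is linear in the
coordinates `x j`. -/
def GoodAut {k A I : Type} [Field k] [CommRing A] [IsDomain A] [HopfAlgebra k A]
    (x : I → FractionRing A) (φ : A →ₐ[k] A) (ω : A ≃ₐ[k] A) : Prop :=
  IsEndo (ω : A →ₐ[k] A) ∧ Function.Commute ω φ ∧ Linear x ω

/-- The map `f : N → N` is given by `t ↦ ψ ∘ t ∘ ω⁻¹` on the points `t`. -/
def ActsOn {k A F N : Type} [Field k] [CommRing A] [Algebra k A] [CommRing F] [Algebra k F]
    (τ : N → (A →ₐ[k] F)) (f : N → N) (ω : A ≃ₐ[k] A) (ψ : F ≃ₐ[k] F) : Prop :=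
  ∀ (n : N) (a : A), τ (f n) (ω a) = ψ (τ n a)

/-- The element `b` acts on the points by `t ↦ ψ b ∘ t ∘ (ω b)⁻¹`, where `ω b` is an automorphism of
the group scheme which commutes with `φ` and is linear in the coordinates `x j`, and `ψ b` commutes
with `θ`. -/
def ActsGeometrically {k A F N B I : Type} [Field k] [CommRing A] [IsDomain A] [HopfAlgebra k A]
    [CommRing F] [Algebra k F] [Group N] [Group B] (x : I → FractionRing A) (φ : A →ₐ[k] A)
    (θ : F ≃ₐ[k] F) (τ : N → (A →ₐ[k] F)) (c : B →* MulAut N) (ω : B → (A ≃ₐ[k] A))
    (ψ : B → (F ≃ₐ[k] F)) : Prop :=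
  ∀ b : B, GoodAut x φ (ω b) ∧ Function.Commute (ψ b) θ ∧ ActsOn τ (c b) (ω b) (ψ b)

/-- The group `N` is the group of fixed points `t ∘ φ = θ ∘ t` of a connected affine group scheme
with the coordinate ring `A` whose field of fractions is purely transcendental over the field with
`p` elements, with values in a finite reduced ring `F` (a finite product of finite fields), and `B`
acts on `N` by `c` through automorphisms of `A` and `F`. -/
def Geometric (p : ℕ) [Fact p.Prime] {N B : Type} [Group N] [Group B] (c : B →* MulAut N) : Prop :=
  ∃ (A : Type) (_ : CommRing A) (_ : IsDomain A) (_ : HopfAlgebra (ZMod p) A) (F : Type)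
    (_ : CommRing F) (_ : Algebra (ZMod p) F) (I : Type) (x : I → FractionRing A)
    (φ : A →ₐ[ZMod p] A) (θ : F ≃ₐ[ZMod p] F) (τ : N → (A →ₐ[ZMod p] F))
    (ω : B →* (A ≃ₐ[ZMod p] A)) (ψ : B →* (F ≃ₐ[ZMod p] F)),
    Algebra.FiniteType (ZMod p) A ∧ Finite F ∧ IsReduced F ∧ Finite I ∧ Rational (ZMod p) x ∧
    RootsOfFrobenius p φ θ ∧ FixedPoints φ θ τ ∧ ActsGeometrically x φ θ τ c ω ψ

/-! ### The composition factors -/

/-- `T` is a quotient of a group `N` on which a group `C` acts geometrically by `d`, such that the
induced action `c` of `C` on `T` is faithful and the image of `C` in `Aut T` is a complement of the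
group of inner automorphisms. -/
def IsLie (p : ℕ) [Fact p.Prime] (T : Type) [Group T] : Prop :=
  ∃ (N : Type) (_ : Group N) (π : N →* T) (C : Type) (_ : Group C) (c : C →* MulAut T)
    (d : C →* MulAut N),
    Function.Surjective π ∧ IsComplInn c ∧ Geometric p d ∧ ∀ (b : C) (n : N), π (d b n) = c b (π n)

/-- The composition factors which are allowed: those of the theorem `AlternatingFactors`
(`FactorA p`: groups of order `p`, `A_n` for `n ≥ 5`, `n ≠ 6`, and certain classical groups in
characteristic `p`), and all simple groups `T` which are not commutative and satisfy `IsLie p T`. -/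
def FactorL (p : ℕ) [Fact p.Prime] (T : Type) [Group T] : Prop :=
  FactorA p T ∨ (IsSimpleGroup T ∧ (∃ a b : T, a * b ≠ b * a) ∧ IsLie p T)

/-! ### The class of homomorphisms -/

/-- The automorphism `x ↦ (c (b_i) (x_(τ⁻¹ i)))_i` of the group `N^k`, for an element
`w = ((b_i), τ)` of the wreath product of `B` and the symmetric group of degree `k`. -/
def wact {N B : Type} [Group N] [Group B] (c : B →* MulAut N) {k : ℕ} (w : Wr B k)
    (x : Fin k → N) : Fin k → N :=
  fun i => c (w.left i) (x (w.right⁻¹ i))

/-- The kernel of `π : W' → W` is isomorphic to a power `N^k`, `π` has a homomorphic section `s`,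
and `W` acts on the kernel through a homomorphism `ψ` of `W` to the wreath product of `B` and the
symmetric group of degree `k`, where `B` acts geometrically on `N`. -/
def LieStep (p : ℕ) [Fact p.Prime] {W W' : Type} [Group W] [Group W'] (π : W' →* W) : Prop :=
  ∃ (N B : Type) (_ : Group N) (_ : Group B) (c : B →* MulAut N) (k : ℕ) (ψ : W →* Wr B k)
    (ι : π.ker ≃* (Fin k → N)) (s : W →* W'),
    Geometric p c ∧ IsSection π s ∧
    ∀ (w : W) (x y : π.ker), ConjTo s w x y → ι y = wact c (ψ w) (ι x)

/-! ### Central extensions -/

/-- `π : N → T` is surjective, `N` is perfect, the kernel of `π` is central and its order is prime to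
`p`, and every central extension `f : M → T` by a finite group of order prime to `p` is a quotient
of `π`. -/
def IsCover (p : ℕ) {N T : Type} [Group N] [Group T] (π : N →* T) : Prop :=
  Function.Surjective π ∧ commutator N = ⊤ ∧ π.ker ≤ Subgroup.center N ∧ ¬ p ∣ Nat.card π.ker ∧
    ∀ (M : Type) [Group M] [Finite M] (f : M →* T), Function.Surjective f →
      f.ker ≤ Subgroup.center M → ¬ p ∣ Nat.card f.ker → ∃ φ : N →* M, ∀ n, f (φ n) = π n

/-- As `IsLie p T`, but `π : N → T` is the covering of `T`. -/
def IsLieCover (p : ℕ) [Fact p.Prime] (T : Type) [Group T] : Prop :=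
  ∃ (N : Type) (_ : Group N) (π : N →* T) (C : Type) (_ : Group C) (c : C →* MulAut T)
    (d : C →* MulAut N),
    IsCover p π ∧ IsComplInn c ∧ Geometric p d ∧ ∀ (b : C) (n : N), π (d b n) = c b (π n)

/-- The simple groups `T` which are allowed as composition factors of `N / Z`, where the order of
`Z` is `c`:
* those of the theorem `CentralExtensions` (`FactorZ p c`),
* the groups with `FactorL p T` which have no central extensions of order prime to `p`,
* the simple groups which are not commutative and satisfy `IsLieCover p T`. -/
def FactorY (p c : ℕ) [Fact p.Prime] (T : Type) [Group T] : Prop :=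
  FactorZ p c T ∨ (FactorL p T ∧ (∃ a b : T, a * b ≠ b * a) ∧ NoCover p T) ∨
    (IsSimpleGroup T ∧ (∃ a b : T, a * b ≠ b * a) ∧ IsLieCover p T)

/-- The homomorphism `π : E → W` of finite groups is surjective, and there are normal subgroups
`P ≤ Z ≤ ker π` of `E` such that `P` is a `p`-group, `Z / P` is contained in the centre of `E / P`,
no prime number besides `p` divides both `|Z|` and `|W|`, and all composition factors of
`ker π / Z` are allowed (`FactorY`). -/
def CentralKernelL (p : ℕ) [Fact p.Prime] {E W : Type} [Group E] [Group W] (π : E →* W) : Prop :=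
  Finite E ∧ Function.Surjective π ∧
  ∃ (P Z : Subgroup E) (_ : P.Normal) (_ : Z.Normal), P ≤ Z ∧ Z ≤ π.ker ∧ IsPGroup p P ∧
    (∀ z ∈ Z, ∀ g : E, z * g * z⁻¹ * g⁻¹ ∈ P) ∧
    (∀ l : ℕ, l.Prime → l ∣ Nat.card Z → l ∣ Nat.card W → l = p) ∧
    CompIn (FactorY p (Nat.card Z)) (π.ker ⧸ Z.subgroupOf π.ker)

/-- The group `G` is finite, and there are normal subgroups `P ≤ Z ≤ N` of `G` such that `P` is a
`p`-group, `Z / P` is contained in the centre of `G / P`, `G / N` is commutative and all composition
factors of `N / Z` are allowed (`FactorY`). -/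
def CentralGroupL (p : ℕ) [Fact p.Prime] (G : Type) [Group G] : Prop :=
  Finite G ∧
  ∃ (P Z N : Subgroup G) (_ : P.Normal) (_ : Z.Normal) (_ : N.Normal), P ≤ Z ∧ Z ≤ N ∧
    IsPGroup p P ∧ (∀ z ∈ Z, ∀ g : G, z * g * z⁻¹ * g⁻¹ ∈ P) ∧
    (∀ a b : G, a * b * a⁻¹ * b⁻¹ ∈ N) ∧
    CompIn (FactorY p (Nat.card Z)) (N ⧸ Z.subgroupOf N)

/-! ### The classes of homomorphisms and groups -/

/-- The class of homomorphisms `π : W' → W`. -/
inductive StepL (p : ℕ) [Fact p.Prime] :
    ∀ {W W' : Type} [Group W] [Group W'], (W' →* W) → Prop
  /-- the epimorphisms of the theorem `AlternatingFactors` (for example, split epimorphisms with a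
  finite abelian kernel) -/
  | base {W W' : Type} [Group W] [Group W'] (π : W' →* W)
      (h : Pool.Agent.K7.H53.MA.Step p π) : StepL p π
  /-- all epimorphisms (split or not) with a finite kernel whose composition factors are allowed -/
  | kernel {W W' : Type} [Group W] [Group W'] (π : W' →* W) (hs : Function.Surjective π)
      (hfin : Finite π.ker) (h : CompIn (FactorL p) π.ker) : StepL p π
  /-- split, the kernel is a power of a group of Lie type with a geometric action -/
  | lie {W W' : Type} [Group W] [Group W'] (π : W' →* W) (h : LieStep p π) : StepL p π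
  /-- the kernel is a central extension -/
  | central {W W' : Type} [Group W] [Group W'] (π : W' →* W) (h : CentralKernelL p π) :
      StepL p π
  /-- compositions -/
  | comp {W W' W'' : Type} [Group W] [Group W'] [Group W''] (π : W' →* W) (q : W'' →* W')
      (hp : StepL p π) (hq : StepL p q) : StepL p (π.comp q)
  /-- quotients -/
  | quot {W W' W'' : Type} [Group W] [Group W'] [Group W''] (π : W' →* W) (q : W'' →* W')
      (hq : Function.Surjective q) (hpq : StepL p (π.comp q)) : StepL p π

/-- The groups which are obtained from the groups with `CentralGroupL p G` by the epimorphisms of the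
class `StepL` and by passing to quotients. -/
inductive BuiltL (p : ℕ) [Fact p.Prime] : ∀ (G : Type) [Group G], Prop
  /-- extensions of commutative groups -/
  | group (G : Type) [Group G] (h : CentralGroupL p G) : BuiltL p G
  /-- extensions -/
  | step {G G' : Type} [Group G] [Group G'] (π : G' →* G) (h : StepL p π) (hG : BuiltL p G) :
      BuiltL p G'
  /-- quotients -/
  | quot {G G' : Type} [Group G] [Group G'] (q : G' →* G) (hq : Function.Surjective q)
      (hG : BuiltL p G') : BuiltL p G

end Pool.Agent.K7.H53.LD
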