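import Pool.Agent.K7.H53.LD.CovL

/-!
# Central extensions: the induction for the larger class of simple groups
-/

set_option autoImplicit false
set_option linter.unusedSectionVars false

open scoped commutatorElement

namespace Pool.Agent.K7.H53.LD

open Pool.Agent.H391R2 (Wr wrMap wr_mul_left wr_mul_right)
open Pool.Agent.H391R2.T4 (RegSol)
open Pool.Agent.TH59.WX (Indec)
open Pool.Agent.TH444.TW (powAct RSK LocK)
open Pool.Agent.Y60.DC (IsAutPower CompIn LocP autPower_rsk)
open Pool.Agent.K7.H53.CE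

section closure

variable {p : ℕ} [hp : Fact p.Prime]

/-- Kernels with composition factors in `FacL p`. -/
theorem rsk_kernelL {W W' : Type} [Group W] [Group W'] [Finite W] [Finite W'] (π : W' →* W)
    (hs : Function.Surjective π) (h : CompIn (FacL p) π.ker) (K : Type) [Field K] [CharP K p] :
    RSK K π := by
  intro K' M _ _ _ _ _ _ _ ε
  have hc : CharP K' p := charP_of_injective_algebraMap (algebraMap K K').injective p
  refine regL_inf p K' M _ _ (ε.symm.surjective.comp hs) ?_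
  have h1 : (ε.symm.toMonoidHom.comp π).ker = π.ker := by
    ext x
    rw [MonoidHom.mem_ker, MonoidHom.mem_ker]
    exact map_eq_one_iff ε.symm ε.symm.injective
  rw [h1]
  exact h


end closure

/-- Simple groups without covers of order dividing `c`. -/
def TyL (p c : ℕ) [Fact p.Prime] (T : Type) [Group T] : Prop :=
  Finite T ∧ commutator T = ⊤ ∧ FacL p T ∧
    ∀ (M : Type) [Group M] [Finite M] (f : M →* T), Function.Surjective f →
      f.ker ≤ Subgroup.center M → Nat.card f.ker ∣ c → ∃ s : T →* M, ∀ t, f (s t) = t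

/-- Simple groups with a cover on which the complement acts with solvable local problems. -/
def TyM (p c : ℕ) (T : Type) [Group T] : Prop :=
  Finite T ∧ Subgroup.center T = ⊥ ∧ Indec T ∧ Nontrivial T ∧
    ∃ ε : MulAut T →* MulAut T, (∀ a, ε (ε a) = ε a) ∧
    (∀ a ∈ (MulAut.conj : T →* MulAut T).range, ε a = 1) ∧
    (∀ a, ε a * a⁻¹ ∈ (MulAut.conj : T →* MulAut T).range) ∧
    ∃ (C : ℕ → Prop) (T' : Type) (_ : Group T') (ρ : T' →* T) (L : MulAut T →* MulAut T'),
      Finite T' ∧ IsCov C ρ ∧ (∀ a b, a ∣ b → C b → C a) ∧ C c ∧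
      (∀ a t, ρ (L a t) = a (ρ t)) ∧
      ∀ (K : Type) [Field K] [CharP K p], LocK K (L.comp ε.range.subtype)

theorem inner_normal' (T : Type) [Group T] : ((MulAut.conj : T →* MulAut T).range).Normal := by
  constructor
  rintro _ ⟨t, rfl⟩ a
  refine ⟨a t, ?_⟩
  apply MulEquiv.ext
  intro x
  change a t * x * (a t)⁻¹ = a (t * a⁻¹ x * t⁻¹)
  rw [map_mul, map_mul, map_inv, MulAut.apply_inv_self]

theorem _root_.Pool.Agent.K7.H53.CE.TyB.toM {p c : ℕ} {T : Type} [Group T] (h : TyB p c T) :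
    TyM p c T := by
  obtain ⟨hfin, hcen, hI, hN, hcompl, C, T', iT', ρ, hT', hcov, hCd, hCc, hloc⟩ := h
  have hIn := inner_normal' T
  obtain ⟨ε, hε2, hε1, hε3⟩ := exists_ret ((MulAut.conj : T →* MulAut T).range) hcompl
  obtain ⟨L, hL⟩ := hcov.exists_aut
  refine ⟨hfin, hcen, hI, hN, ε, hε2, hε1, hε3, C, T', iT', ρ, L, hT', hcov, hCd, hCc, hL, ?_⟩
  intro K _ _ K' M' _ _ _ _ _ _ _ β
  have hc : CharP K' p := charP_of_injective_algebraMap (algebraMap K K').injective p
  exact hloc K' M' ((L.comp ε.range.subtype).comp β)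

theorem _root_.Pool.Agent.K7.H53.CE.TyA.toL {p c : ℕ} [Fact p.Prime] {T : Type} [Group T]
    (h : TyA p c T) : TyL p c T :=
  ⟨h.1, h.2.1, Or.inl h.2.2.1, h.2.2.2⟩

section caseA

variable {p : ℕ} [hp : Fact p.Prime] {c : ℕ} {G Γ : Type} [Group G] [Finite G] [Group Γ]
  [Finite Γ] (α : G →* Γ) (hα : Function.Surjective α) (hc : α.ker ≤ Subgroup.center G)
  (M : Subgroup Γ) [hMn : M.Normal] {T : Type} [Group T] {m : ℕ} (e : M ≃* (Fin m → T))

include hα hc e in
theorem case_L (hk : Nat.card α.ker ∣ c) (hT : TyL p c T) :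
    ∃ N : Subgroup G, ∃ _ : N.Normal, Nonempty (N ≃* (Fin m → T)) ∧ (∀ x ∈ N, α x ∈ M) ∧
      ∀ ν, α ν ∈ M → ∃ x ∈ N, ∃ z ∈ α.ker, ν = x * z := by
  obtain ⟨hfin, hperf, hfac, hlift⟩ := hT
  have hcov : IsCov (fun d => d ∣ c) (MonoidHom.id T) :=
    { surj := fun t => ⟨t, rfl⟩
      perf := hperf
      cen := by
        intro x hx
        have h1 : x = 1 := hx
        rw [h1]
        exact one_mem _
      ker := by
        have h1 : (MonoidHom.id T).ker = ⊥ := by
          ext x
          rw [MonoidHom.mem_ker, Subgroup.mem_bot]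
          rfl
        rw [h1, Subgroup.card_bot]
        exact one_dvd c
      lift := hlift }
  let N : Subgroup G := M.comap α
  let f : N →* (Fin m → T) :=
    e.toMonoidHom.comp ((α.comp N.subtype).codRestrict M (fun x => x.2))
  have hf : ∀ x : N, f x = e ⟨α x, x.2⟩ := fun x => rfl
  have hfs : Function.Surjective f := by
    intro y
    obtain ⟨g, hg⟩ := hα (e.symm y : M)
    have hgM : α g ∈ M := by
      rw [hg]
      exact (e.symm y).2
    refine ⟨⟨g, hgM⟩, ?_⟩
    rw [hf]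
    have h3 : (⟨α g, hgM⟩ : M) = e.symm y := Subtype.ext hg
    change e ⟨α g, hgM⟩ = y
    rw [h3, MulEquiv.apply_symm_apply]
  have hfk : ∀ x : N, x ∈ f.ker → α x = 1 := by
    intro x hx
    rw [MonoidHom.mem_ker, hf] at hx
    exact congrArg Subtype.val ((map_eq_one_iff e e.injective).1 hx)
  have hfc : f.ker ≤ Subgroup.center N := by
    intro x hx
    rw [Subgroup.mem_center_iff]
    intro y
    exact Subtype.ext (Subgroup.mem_center_iff.1 (hc (hfk x hx)) y)
  let τ : f.ker →* α.ker := (N.subtype.comp f.ker.subtype).codRestrict α.ker fun x => hfk x x.2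
  have hτ : Function.Injective τ := by
    intro x y hxy
    exact Subtype.ext (Subtype.ext (congrArg (fun t : α.ker => (t : G)) hxy))
  obtain ⟨Φ, hΦ⟩ := hcov.exists_pow (fun a b hab hb => hab.trans hb) f hfs hfc
    ((Subgroup.card_dvd_of_injective τ hτ).trans hk)
  have hΦ' : ∀ x, f (Φ x) = x := fun x => funext fun i => hΦ x i
  have hΦa : ∀ x, α (Φ x) = (e.symm x : M) := by
    intro x
    have h3 : e ⟨α (Φ x), (Φ x).2⟩ = x := hΦ' x
    have h4 := congrArg e.symm h3
    rw [MulEquiv.symm_apply_apply] at h4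
    rw [← h4]
  let Ψ : (Fin m → T) →* G := N.subtype.comp Φ
  have hΨ : Function.Injective Ψ := by
    intro x y hxy
    have h1 : Φ x = Φ y := Subtype.ext hxy
    rw [← hΦ' x, h1, hΦ']
  -- conjugation
  have hconj : ∀ (g : G) (x : Fin m → T), g * Ψ x * g⁻¹ = Ψ (cT α M e g x) := by
    intro g x
    have h1 : (MulAut.conj g).toMonoidHom.comp Ψ = Ψ.comp (cT α M e g).toMonoidHom := by
      refine pi_hom_eq hperf _ _ fun a => hc ?_
      rw [MonoidHom.mem_ker]
      change α ((g * (Φ a : G) * g⁻¹)⁻¹ * (Φ (cT α M e g a) : G)) = 1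
      rw [map_mul, map_inv, inv_mul_eq_one, map_mul, map_mul, map_inv, hΦa, hΦa]
      have h3 := cT_apply α M e g (e.symm a)
      rw [MulEquiv.apply_symm_apply] at h3
      rw [h3, MulEquiv.symm_apply_apply]
    exact DFunLike.congr_fun h1 x
  refine ⟨Ψ.range, ⟨?_⟩, ⟨(Ψ.ofInjective hΨ).symm⟩, ?_, ?_⟩
  · rintro _ ⟨x, rfl⟩ g
    rw [hconj]
    exact ⟨_, rfl⟩
  · rintro _ ⟨x, rfl⟩
    exact (Φ x).2
  · intro ν hν
    have h4 : (Φ (f ⟨ν, hν⟩))⁻¹ * ⟨ν, hν⟩ ∈ f.ker := by
      rw [MonoidHom.mem_ker, map_mul, map_inv, hΦ', inv_mul_cancel]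
    exact ⟨Ψ (f ⟨ν, hν⟩), ⟨_, rfl⟩, (Φ (f ⟨ν, hν⟩) : G)⁻¹ * ν, hfk _ h4,
      (mul_inv_cancel_left _ _).symm⟩

end caseA

/-- **The induction.** -/
theorem main_relL (p : ℕ) [hp' : Fact p.Prime] (c : ℕ) (S : ∀ (T : Type) [Group T], Prop)
    (hiso : ∀ (T T' : Type) [Group T] [Group T'], Nonempty (T ≃* T') → S T → S T')
    (hsim : ∀ (T : Type) [Group T], S T → IsSimpleGroup T)
    (hS : ∀ (T : Type) [Group T], S T → Nat.card T = p ∨ ∃ (T₁ : Type) (_ : Group T₁),
      Nonempty (T ≃* T₁) ∧ (TyL p c T₁ ∨ TyM p c T₁))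
    (W W₀ : Type) [Group W] [Finite W] [Group W₀] (ω : W →* W₀) (K : Type) [Field K]
    [CharP K p]
    (hbase : ∀ (H : Type) [Group H] [Finite H] (τ : H →* W), Function.Surjective τ →
      τ.ker ≤ Subgroup.center H → Nat.card τ.ker ∣ c → RSK K (ω.comp τ)) (d : ℕ) :
    ∀ (G Γ : Type) [Group G] [Finite G] [Group Γ] [Finite Γ] (α : G →* Γ) (β : Γ →* W),
      Nat.card Γ ≤ d → Function.Surjective α → Function.Surjective β →
      α.ker ≤ Subgroup.center G → CompIn S β.ker → Nat.card α.ker ∣ c →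
      RSK K ((ω.comp β).comp α) := by
  induction d with
  | zero =>
    intro G Γ _ _ _ _ α β h
    have := Nat.card_pos (α := Γ)
    omega
  | succ d ih =>
    intro G Γ _ _ _ _ α β hcard hα hβ hc hΓ hb
    by_cases htriv : β.ker = ⊥
    · have hker : (β.comp α).ker = α.ker := by
        ext x
        rw [MonoidHom.mem_ker, MonoidHom.mem_ker, MonoidHom.comp_apply,
          ← MonoidHom.mem_ker (f := β), htriv, Subgroup.mem_bot]
      exact hbase G (β.comp α) (hβ.comp hα) (by rwa [hker]) (by rwa [hker])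
    obtain ⟨M, hMn, hMN, hMb, ⟨T, iT, m, hT, ⟨e⟩⟩, hcomp⟩ := Pool.Agent.Y419.DC.cf_holds
      S hiso hsim Γ β.ker htriv hΓ
    let β' : Γ ⧸ M →* W := QuotientGroup.lift M β hMN
    have hβ' : Function.Surjective β' := by
      intro w
      obtain ⟨γ, rfl⟩ := hβ w
      exact ⟨QuotientGroup.mk γ, rfl⟩
    have hcompQ : CompIn S β'.ker := by
      have h1 : β'.ker = β.ker.map (QuotientGroup.mk' M) := by
        ext x
        constructor
        · intro hx
          obtain ⟨γ, rfl⟩ := QuotientGroup.mk_surjective x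
          exact ⟨γ, hx, rfl⟩
        · rintro ⟨γ, hγ, rfl⟩
          exact hγ
      rw [h1]
      exact hcomp
    have hcardQ : Nat.card (Γ ⧸ M) ≤ d := by
      have h1 : 1 < Nat.card M := (Subgroup.one_lt_card_iff_ne_bot M).2 hMb
      have h2 := Subgroup.card_eq_card_quotient_mul_card_subgroup M
      have h3 : 0 < Nat.card (Γ ⧸ M) := Nat.card_pos
      have h4 : Nat.card (Γ ⧸ M) < Nat.card Γ := by
        rw [h2]
        exact lt_mul_of_one_lt_right h3 h1
      omega
    rcases hS T hT with hT | ⟨T₁, iT₁, ⟨eT⟩, hT | hT⟩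
    · -- the case of a `p`-group
      have hM : IsPGroup p M := by
        refine IsPGroup.of_card (n := m) ?_
        rw [Nat.card_congr e.toEquiv, Nat.card_fun, hT, Nat.card_fin]
      obtain ⟨P, hPn, hPp, hPM, hPN⟩ := p_case α hα hc M hM
      obtain ⟨β₁, hβ0, hβ1, hβ2, hβ3⟩ := quot_data α hα hc M P hPM hPN
      have h1 := ih (G ⧸ P) (Γ ⧸ M) β₁ β' hcardQ hβ1 hβ' hβ2 hcompQ (hβ3.trans hb)
      have h2 : (ω.comp β).comp α = ((ω.comp β').comp β₁).comp (QuotientGroup.mk' P) := by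
        apply MonoidHom.ext
        intro x
        change ω (β (α x)) = ω (β' (β₁ (QuotientGroup.mk x)))
        rw [hβ0]
        rfl
      rw [h2]
      exact RSK.comp h1 (rsk_step _ (step_pgroup P hPp) K)
    · let e₁ : M ≃* (Fin m → T₁) := e.trans (MulEquiv.piCongrRight fun _ => eT)
      obtain ⟨N, hNn, ⟨e'⟩, hNM, hNN⟩ := case_L α hα hc M e₁ hb hT
      obtain ⟨β₁, hβ0, hβ1, hβ2, hβ3⟩ := quot_data α hα hc M N hNM hNN
      have h1 := ih (G ⧸ N) (Γ ⧸ M) β₁ β' hcardQ hβ1 hβ' hβ2 hcompQ (hβ3.trans hb)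
      have h2 : (ω.comp β).comp α = ((ω.comp β').comp β₁).comp (QuotientGroup.mk' N) := by
        apply MonoidHom.ext
        intro x
        change ω (β (α x)) = ω (β' (β₁ (QuotientGroup.mk x)))
        rw [hβ0]
        rfl
      rw [h2]
      refine RSK.comp h1 (rsk_kernelL (p := p) _ (QuotientGroup.mk'_surjective N) ?_ K)
      rw [QuotientGroup.ker_mk']
      exact Pool.Agent.Y419.DC.quot (fun T T' _ _ h h' => FacL.iso p T T' h h')
        (fun T _ h => FacL.simple p T h)
        (compIn_pow (fun T T' _ _ h h' => FacL.iso p T T' h h') (fun T _ h => FacL.simple p T h) T₁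
          hT.2.2.1 m) N e'.symm.toMonoidHom e'.symm.surjective
    · -- the case of a cover
      let e₁ : M ≃* (Fin m → T₁) := e.trans (MulEquiv.piCongrRight fun _ => eT)
      obtain ⟨hfin, hcen, hI, hN, ε, hε2, hε1, hε3, C, T', iT', ρ, L, hT', hcov, hCd, hCc, hL,
        hloc⟩ := hT
      obtain ⟨Y, iY, fY, q, r, hq, hr, hqr⟩ :=
        of_HTL α M hI hN e₁ ε hcov hCd hε2 hε3 hα hc (hCd _ _ hb hCc) L hL
      let H := HT α M hI hN e₁ ε
      let α' : H →* Γ ⧸ M := (QuotientGroup.mk' M).comp (α.comp H.subtype)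
      have hαk : ∀ h : H, h ∈ α'.ker → (h : G) ∈ α.ker := by
        intro h hh
        exact HT_inf α M hI hN e₁ ε hcen hε1 h h.2 ((QuotientGroup.eq_one_iff (α h)).1 hh)
      have h1 : RSK K ((ω.comp β').comp α') := by
        refine ih H (Γ ⧸ M) α' β' hcardQ ?_ hβ' ?_ hcompQ ?_
        · intro y
          obtain ⟨y', rfl⟩ := QuotientGroup.mk_surjective y
          obtain ⟨g, rfl⟩ := hα y'
          obtain ⟨ν, hν, h, hh, rfl⟩ := HT_sup α M hI hN e₁ ε hε2 hε3 hα g
          refine ⟨⟨h, hh⟩, ?_⟩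
          change (QuotientGroup.mk (α h) : Γ ⧸ M) = QuotientGroup.mk (α (ν * h))
          rw [map_mul, QuotientGroup.mk_mul, (QuotientGroup.eq_one_iff (α ν)).2 hν, one_mul]
        · intro x hx
          rw [Subgroup.mem_center_iff]
          intro y
          exact Subtype.ext (Subgroup.mem_center_iff.1 (hc (hαk x hx)) y)
        · refine Dvd.dvd.trans ?_ hb
          let ρ : α'.ker →* α.ker :=
            (H.subtype.comp α'.ker.subtype).codRestrict α.ker fun x => hαk x x.2
          have hρ : Function.Injective ρ := by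
            intro x y hxy
            exact Subtype.ext (Subtype.ext (congrArg (fun t : α.ker => (t : G)) hxy))
          exact Subgroup.card_dvd_of_injective ρ hρ
      have h2 : RSK K (((ω.comp β').comp α').comp r) :=
        RSK.comp h1 (cPower_rsk K _ (hloc K) r hr)
      refine RSK.quot q hq (fun x => ?_) h2
      obtain ⟨ν, hν, hx⟩ := hqr x
      rw [hx]
      change ω (β (α (ν * r x))) = ω (β (α (r x)))
      rw [map_mul, map_mul, show β (α ν) = 1 from hMN hν, one_mul]


end Pool.Agent.K7.H53.LD
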