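import Pool.Agent.K7.H53.LD.Defs
import Pool.Agent.K7.H53.LT.Reg
import Pool.Agent.K7.H53.MA.Main
import Pool.Agent.Y60.DC.RecC
import Pool.Agent.Y60.DC.ClsU2

/-!
# Good kernels of Lie type
-/

set_option autoImplicit false

namespace Pool.Agent.K7.H53.LD

open Pool.Agent.H391R2 (Wr)
open Pool.Agent.H391R2.T4 (RegSol)
open Pool.Agent.TH444.TW (RSK LocK pow_rsk powAct exists_sdEquiv)
open Pool.Agent.Y60.DC (CompIn GoodKerP classifyT conj_iso center_iso kern_reg_gen)
open Pool.Agent.Y60.DCF (IsComplInn IsSection ConjTo center_bot)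
open Pool.Agent.K7.H53.MA (FactorA FacA)

section bridge

open Pool.Agent.K7.H53.LT

theorem finite_points (p : ℕ) [Fact p.Prime] (A F : Type) [CommRing A] [Algebra (ZMod p) A]
    [CommRing F] [Algebra (ZMod p) F] [Finite F] [Algebra.FiniteType (ZMod p) A] :
    Finite (A →ₐ[ZMod p] F) := by
  obtain ⟨s, hs⟩ := Algebra.FiniteType.out (R := ZMod p) (A := A)
  have h : Function.Injective fun (t : A →ₐ[ZMod p] F) (a : s) => t a := by
    intro t t' htt
    refine AlgHom.ext_of_adjoin_eq_top hs fun a ha => ?_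
    exact congrFun htt ⟨a, ha⟩
  exact Finite.of_injective _ h

theorem Geometric.finite {p : ℕ} [Fact p.Prime] {N B : Type} [Group N] [Group B]
    {c : B →* MulAut N} (h : Geometric p c) : Finite N := by
  obtain ⟨A, i1, i2, i3, F, i4, i5, I, x, φ, θ, τ, ω, ψ, h1, h2, -, -, -, -, h3, -⟩ := h
  have := finite_points p A F
  exact Finite.of_injective τ h3.1

theorem IsEndo.hopf {k A : Type} [Field k] [CommRing A] [HopfAlgebra k A] {f : A →ₐ[k] A}
    (h : IsEndo f) : IsHopf f := fun a => AlgHom.congr_fun h a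

/-- **Split embedding problems with geometric action.** -/
theorem Geometric.reg {p : ℕ} [Fact p.Prime] {N B : Type} [Group N] [Group B]
    {c : B →* MulAut N} (h : Geometric p c) (K L : Type) [Field K] [Infinite K] [CharP K p]
    [Field L] [Algebra K L] [FiniteDimensional K L] [IsGalois K L] (β : (L ≃ₐ[K] L) →* B) :
    RegSol K L (N ⋊[c.comp β] (L ≃ₐ[K] L)) SemidirectProduct.rightHom := by
  have hfin := h.finite
  obtain ⟨A, i1, i2, i3, F, i4, i5, I, x, φ, θ, τ, ω, ψ, h1, h2, hr, hI, ⟨h3, h4⟩,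
    ⟨h5, m, h6, h7⟩, ⟨h8, h9, h10⟩, h11⟩ := h
  have : Fintype I := Fintype.ofFinite I
  let T : N →* Pts (ZMod p) A F := MonoidHom.mk' (fun n => pt (τ n)) h9
  refine lie_reg (x := x) ⟨h3, h4⟩ φ h5.hopf θ m h6 h7 N T h8 h10 K L (c.comp β) (ω.comp β)
    (fun γ => (h11 (β γ)).1.1.hopf) (fun γ => (h11 (β γ)).1.2.1) (fun γ => (h11 (β γ)).1.2.2)
    (ψ.comp β) (fun γ => AlgEquiv.ext fun r => (h11 (β γ)).2.1 r)
    (fun γ n => pts_ext fun a => ?_)
  have h12 := (h11 (β γ)).2.2 n ((ω (β γ)).symm a)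
  rw [AlgEquiv.apply_symm_apply] at h12
  exact h12

end bridge

theorem Geometric.locK {p : ℕ} [Fact p.Prime] {N B : Type} [Group N] [Group B]
    {c : B →* MulAut N} (h : Geometric p c) (K : Type) [Field K] [CharP K p] : LocK K c := by
  intro K' M' _ _ _ _ _ _ _ β
  have hc : CharP K' p := charP_of_injective_algebraMap (algebraMap K K').injective p
  exact h.reg K' M' β

/-- Powers. -/
theorem LieStep.rsk {p : ℕ} [Fact p.Prime] {W W' : Type} [Group W] [Group W'] [Finite W]
    {π : W' →* W} (h : LieStep p π) (K : Type) [Field K] [CharP K p] : Finite W' ∧ RSK K π := by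
  obtain ⟨N, B, iN, iB, c, k, ψ, ι, s, hg, hs, hc⟩ := h
  have hN := hg.finite
  have hs' : ∀ w, π (s w) = w := hs
  have hsurj : Function.Surjective π := fun w => ⟨s w, hs' w⟩
  have hker : Finite π.ker := Finite.of_equiv _ ι.symm.toEquiv
  have hfin : Finite W' := Pool.Agent.TH444.TW.finite_of_ker π
  refine ⟨hfin, ?_⟩
  let j : (Fin k → N) →* W' := π.ker.subtype.comp ι.symm.toMonoidHom
  have hj : Function.Injective j := Subtype.val_injective.comp ι.symm.injective
  have hr : j.range = π.ker := by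
    ext x
    constructor
    · rintro ⟨y, rfl⟩
      exact (ι.symm y).2
    · intro hx
      refine ⟨ι ⟨x, hx⟩, ?_⟩
      change ((ι.symm (ι ⟨x, hx⟩) : π.ker) : W') = x
      rw [ι.symm_apply_apply]
  have hcj : ∀ w x, s w * j x = j (((powAct c k).comp ψ) w x) * s w := by
    intro w x
    have hk : s w * (ι.symm x : W') * (s w)⁻¹ ∈ π.ker :=
      (MonoidHom.normal_ker π).conj_mem _ (ι.symm x).2 _
    have h2 : ι ⟨_, hk⟩ = wact c (ψ w) (ι (ι.symm x)) := hc w (ι.symm x) ⟨_, hk⟩ rfl
    rw [ι.apply_symm_apply] at h2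
    have h3 : ι.symm (wact c (ψ w) x) = ⟨_, hk⟩ := by
      rw [← h2, ι.symm_apply_apply]
    change s w * (ι.symm x : W') = (ι.symm (wact c (ψ w) x) : W') * s w
    rw [h3, inv_mul_cancel_right]
  obtain ⟨e, he⟩ := exists_sdEquiv ((powAct c k).comp ψ) π j s hj hr hs' hcj
  refine RSK.congr (pow_rsk c ψ (hg.locK K)) e.symm fun x => ?_
  obtain ⟨y, rfl⟩ := e.surjective x
  rw [MulEquiv.symm_apply_apply]
  exact (he y).symm

theorem IsLie.finite {p : ℕ} [Fact p.Prime] {T : Type} [Group T] (h : IsLie p T) : Finite T := by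
  obtain ⟨N, iN, π, C, iC, c, d, hπ, hc, hg, hd⟩ := h
  have := hg.finite
  exact Finite.of_surjective π hπ

theorem IsLie.iso {p : ℕ} [Fact p.Prime] {T T' : Type} [Group T] [Group T'] (e : T ≃* T')
    (h : IsLie p T) : IsLie p T' := by
  obtain ⟨N, iN, π, C, iC, c, d, hπ, ⟨hc, hT⟩, hg, hd⟩ := h
  let E : MulAut T ≃* MulAut T' := MulAut.congr e
  refine ⟨N, iN, (e : T →* T').comp π, C, iC, (E : MulAut T →* MulAut T').comp c, d,
    e.surjective.comp hπ, ⟨E.injective.comp hc, ?_⟩, hg, fun b n => ?_⟩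
  · have h2 : ((E : MulAut T →* MulAut T').comp c).range =
        c.range.map (E : MulAut T →* MulAut T') := by rw [MonoidHom.range_comp]
    have h3 : (MulAut.conj : T' →* MulAut T').range =
        (MulAut.conj : T →* MulAut T).range.map (E : MulAut T →* MulAut T') := by
      rw [← MonoidHom.range_comp]
      have h4 := conj_iso e
      have h5 : ((MulAut.conj : T' →* MulAut T').comp (e : T →* T')).range =
          (MulAut.conj : T' →* MulAut T').range := by
        rw [MonoidHom.range_comp, MonoidHom.range_eq_top.2 e.surjective, ← MonoidHom.range_eq_map]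
      rw [← h5, ← h4]
    rw [h2, h3]
    exact (E.mapSubgroup : Subgroup (MulAut T) ≃o Subgroup (MulAut T')).isCompl hT
  · change e (π (d b n)) = e (c b (e.symm (e (π n))))
    rw [e.symm_apply_apply, hd]

/-- All embedding problems whose kernel is a centreless group `T` with `IsLie p T`. -/
theorem IsLie.good {p : ℕ} [Fact p.Prime] {T : Type} [Group T]
    (hZ : Subgroup.center T = ⊥) (h : IsLie p T) : GoodKerP p T := by
  obtain ⟨N, iN, π, C, iC, c, d, hπ, ⟨hc, hT⟩, hg, hd⟩ := h
  intro K L X _ _ _ _ _ _ _ _ α hα ⟨e⟩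
  obtain ⟨β, Θ, hΘ, hβ⟩ := classifyT hZ c.range hT α hα e
  refine Pool.Agent.TH59.WX.reg_transport SemidirectProduct.rightHom α Θ hΘ ?_
  let E : C ≃* c.range := MonoidHom.ofInjective hc
  let b : (L ≃ₐ[K] L) →* C := E.symm.toMonoidHom.comp (β.codRestrict c.range hβ)
  have hb : ∀ γ, c (b γ) = β γ := fun γ => by
    have h2 : E (b γ) = β.codRestrict c.range hβ γ := E.apply_symm_apply _
    exact congrArg Subtype.val h2
  have h3 := hg.reg K L b
  let q : N ⋊[d.comp b] (L ≃ₐ[K] L) →* T ⋊[β] (L ≃ₐ[K] L) :=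
    SemidirectProduct.map π (MonoidHom.id _) (by
      intro γ
      apply MonoidHom.ext
      intro a
      change π (d (b γ) a) = β γ (π a)
      rw [← hb, hd])
  have hq : Function.Surjective q := by
    rintro ⟨n, w⟩
    obtain ⟨a, rfl⟩ := hπ n
    exact ⟨⟨a, w⟩, rfl⟩
  refine Pool.Agent.W200.IJ.regSol_quot (L' := L) SemidirectProduct.rightHom
    SemidirectProduct.rightHom q hq ?_ ?_ h3
  · intro g
    rw [Pool.Agent.TH444.TW.restrictNormal_self]
    rfl
  · intro σ hσ
    rw [Pool.Agent.TH444.TW.restrictNormal_self] at hσ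
    exact ⟨1, map_one _, by rw [map_one, hσ]⟩

/-- The larger class of factors. -/
def FacL (p : ℕ) [Fact p.Prime] (T : Type) [Group T] : Prop :=
  FacA p T ∨ (IsSimpleGroup T ∧ Subgroup.center T = ⊥ ∧ IsLie p T)

theorem FactorL.old (p : ℕ) [Fact p.Prime] (T : Type) [Group T] (h : FactorL p T) : FacL p T :=
  h.imp (fun h => h.old) fun h => ⟨h.1, center_bot h.1 h.2.1, h.2.2⟩

theorem FacL.iso (p : ℕ) [Fact p.Prime] (T T' : Type) [Group T] [Group T']
    (e : Nonempty (T ≃* T')) (h : FacL p T) : FacL p T' := by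
  rcases h with h | ⟨h1, h2, h3⟩
  · exact Or.inl (FacA.iso p T T' e h)
  · obtain ⟨e⟩ := e
    exact Or.inr ⟨e.symm.isSimpleGroup, center_iso e h2, h3.iso e⟩

theorem FacL.simple (p : ℕ) [Fact p.Prime] (T : Type) [Group T] (h : FacL p T) :
    IsSimpleGroup T := by
  rcases h with h | ⟨h1, -, -⟩
  · exact FacA.simple p T h
  · exact h1

theorem FacL.good (p : ℕ) [Fact p.Prime] (T : Type) [Group T] (h : FacL p T) :
    Nat.card T = p ∨ (Finite T ∧ Subgroup.center T = ⊥ ∧ GoodKerP p T) := by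
  rcases h with h | ⟨h1, h2, h3⟩
  · exact FacA.good p T h
  · exact Or.inr ⟨h3.finite, h2, h3.good h2⟩

/-- Embedding problems over infinite fields of characteristic `p`. -/
theorem regL_inf (p : ℕ) [Fact p.Prime] (K L X : Type) [Field K] [CharP K p]
    [Infinite K] [Field L] [Algebra K L] [FiniteDimensional K L] [IsGalois K L] [Group X]
    [Finite X] (α : X →* (L ≃ₐ[K] L)) (hα : Function.Surjective α)
    (h : CompIn (FacL p) α.ker) : RegSol K L X α :=
  kern_reg_gen p (fun T _ => FacL p T) (fun T T' _ _ e h => FacL.iso p T T' e h)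
    (fun T _ h => FacL.simple p T h) (fun T _ h => FacL.good p T h) _ K L X α hα h rfl

end Pool.Agent.K7.H53.LD
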