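import Pool.Agent.K7.H53.LD.Types

/-!
# Embedding problems with kernels which are central extensions
-/

set_option autoImplicit false
set_option linter.unusedSectionVars false

open scoped commutatorElement

namespace Pool.Agent.K7.H53.LD

open Pool.Agent.K7.H53.CE
open Pool.Agent.Y60.DC (CompIn PSL2 FacC)
open Pool.Agent.Y60.DCF (Factor IsPSL2 IsPSL compIn_mono)
open Pool.Agent.TH444.TW (RSK Cls)
open Pool.Agent.H391R2.T4 (RegSol)
open Pool.Agent.TH15.IGP (Lim)
open Pool.Agent.TH444.TW (infinite_ratFunc)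

/-- **Embedding problems with kernels which are central extensions.** -/
theorem rsk_mainY (p : ℕ) [hp : Fact p.Prime] {E W W₀ : Type} [Group E] [Finite E] [Group W]
    [Finite W] [Group W₀] (ω : W →* W₀) (π : E →* W) (hπ : Function.Surjective π)
    (P Z : Subgroup E) [hPn : P.Normal]
    [hZn : Z.Normal] (hPZ : P ≤ Z) (hZ : Z ≤ π.ker) (hP : IsPGroup p P)
    (hcen : ∀ z ∈ Z, ∀ g : E, z * g * z⁻¹ * g⁻¹ ∈ P)
    (h : CompIn (SY p (Nat.card Z)) (π.ker ⧸ Z.subgroupOf π.ker)) (K : Type) [Field K]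
    [CharP K p]
    (hbase : ∀ (H : Type) [Group H] [Finite H] (τ : H →* W), Function.Surjective τ →
      τ.ker ≤ Subgroup.center H → Nat.card τ.ker ∣ Nat.card Z → ¬ p ∣ Nat.card τ.ker →
      RSK K (ω.comp τ)) : RSK K (ω.comp π) := by
  -- the Sylow subgroup of `Z / P`
  let Z₁ : Subgroup (E ⧸ P) := Z.map (QuotientGroup.mk' P)
  have hZ₁ : Z₁ ≤ Subgroup.center (E ⧸ P) := by
    rintro _ ⟨z, hz, rfl⟩
    rw [Subgroup.mem_center_iff]
    intro y
    obtain ⟨g, rfl⟩ := QuotientGroup.mk_surjective y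
    change (QuotientGroup.mk g : E ⧸ P) * QuotientGroup.mk z = QuotientGroup.mk z * QuotientGroup.mk g
    rw [← QuotientGroup.mk_mul, ← QuotientGroup.mk_mul]
    refine (QuotientGroup.eq_iff_div_mem).2 ?_ |>.symm
    rw [div_eq_mul_inv, mul_inv_rev, ← mul_assoc]
    exact hcen z hz g
  let Q₀ : Sylow p Z₁ := default
  let Q : Subgroup (E ⧸ P) := (Q₀ : Subgroup Z₁).map Z₁.subtype
  have hQZ : Q ≤ Z₁ := Subgroup.map_subtype_le _
  have hQn : Q.Normal := ⟨fun x hx g => by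
    rw [Subgroup.mem_center_iff.1 (hZ₁ (hQZ hx)) g, mul_inv_cancel_right]
    exact hx⟩
  have hQp : IsPGroup p Q := Q₀.2.map _
  let R : Subgroup E := Q.comap (QuotientGroup.mk' P)
  have hRn : R.Normal := Subgroup.normal_comap _
  have hRp : IsPGroup p R := hQp.comap_of_ker_isPGroup _ (by
    rw [QuotientGroup.ker_mk']
    exact hP)
  have hPR : P ≤ R := by
    intro x hx
    change (QuotientGroup.mk x : E ⧸ P) ∈ Q
    rw [(QuotientGroup.eq_one_iff x).2 hx]
    exact one_mem _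
  have hRZ : R ≤ Z := by
    intro x hx
    obtain ⟨z, hz, hzx⟩ := hQZ (show (QuotientGroup.mk x : E ⧸ P) ∈ Q from hx)
    have h1 : (QuotientGroup.mk z : E ⧸ P) = QuotientGroup.mk x := hzx
    rw [QuotientGroup.eq] at h1
    have h2 := Z.mul_mem hz (hPZ h1)
    rwa [mul_inv_cancel_left] at h2
  -- the central extension
  let α : E ⧸ R →* E ⧸ Z := QuotientGroup.map R Z (MonoidHom.id E) (fun x hx => hRZ hx)
  have hα : ∀ g : E, α (QuotientGroup.mk g) = QuotientGroup.mk g := fun g => rfl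
  have hαs : Function.Surjective α := by
    intro y
    obtain ⟨g, rfl⟩ := QuotientGroup.mk_surjective y
    exact ⟨QuotientGroup.mk g, rfl⟩
  have hαk : ∀ x ∈ α.ker, ∃ z ∈ Z, (QuotientGroup.mk z : E ⧸ R) = x := by
    intro x hx
    obtain ⟨g, rfl⟩ := QuotientGroup.mk_surjective x
    rw [MonoidHom.mem_ker, hα, QuotientGroup.eq_one_iff] at hx
    exact ⟨g, hx, rfl⟩
  have hαc : α.ker ≤ Subgroup.center (E ⧸ R) := by
    intro x hx
    obtain ⟨z, hz, rfl⟩ := hαk x hx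
    rw [Subgroup.mem_center_iff]
    intro y
    obtain ⟨g, rfl⟩ := QuotientGroup.mk_surjective y
    rw [← QuotientGroup.mk_mul, ← QuotientGroup.mk_mul]
    refine (QuotientGroup.eq_iff_div_mem).2 ?_ |>.symm
    rw [div_eq_mul_inv, mul_inv_rev, ← mul_assoc]
    exact hPR (hcen z hz g)
  let τ : Z₁ →* α.ker := MonoidHom.codRestrict
    ((QuotientGroup.map P R (MonoidHom.id E) (fun x hx => hPR hx)).comp Z₁.subtype) α.ker (by
      rintro ⟨_, z, hz, rfl⟩
      rw [MonoidHom.mem_ker]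
      exact (QuotientGroup.eq_one_iff z).2 hz)
  have hτ : Function.Surjective τ := by
    intro x
    obtain ⟨z, hz, hzx⟩ := hαk x x.2
    exact ⟨⟨QuotientGroup.mk z, z, hz, rfl⟩, Subtype.ext hzx⟩
  have hτk : (Q₀ : Subgroup Z₁) ≤ τ.ker := by
    rintro ⟨_, z, hz, rfl⟩ hx
    rw [MonoidHom.mem_ker]
    apply Subtype.ext
    refine (QuotientGroup.eq_one_iff z).2 ?_
    exact ⟨_, hx, rfl⟩
  have hcard1 : Nat.card α.ker ∣ (Q₀ : Subgroup Z₁).index := by
    have h6 := Subgroup.index_dvd_of_le hτk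
    rwa [Subgroup.index_ker, MonoidHom.range_eq_top.2 hτ, Subgroup.card_top] at h6
  have hpc : ¬ p ∣ Nat.card α.ker := fun h' => Q₀.not_dvd_index (h'.trans hcard1)
  have hcc : Nat.card α.ker ∣ Nat.card Z :=
    (Subgroup.card_dvd_of_surjective τ hτ).trans (Subgroup.card_map_dvd _ _)
  let β : E ⧸ Z →* W := QuotientGroup.lift Z π hZ
  have hβs : Function.Surjective β := by
    intro w
    obtain ⟨g, rfl⟩ := hπ w
    exact ⟨QuotientGroup.mk g, rfl⟩
  have hcomp : CompIn (SY p (Nat.card Z)) β.ker := by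
    let g : (π.ker ⧸ Z.subgroupOf π.ker) →* β.ker :=
      QuotientGroup.lift _ (((QuotientGroup.mk' Z).comp π.ker.subtype).codRestrict β.ker
        (fun x => x.2)) (by
          intro x hx
          apply Subtype.ext
          exact (QuotientGroup.eq_one_iff (x : E)).2 hx)
    refine Pool.Agent.Y419.DC.quot (fun T T' _ _ h h' => SY.iso T T' h h')
      (fun T _ h => SY.simple T h) h _ g ?_
    rintro ⟨y, hy⟩
    obtain ⟨x, rfl⟩ := QuotientGroup.mk_surjective y
    exact ⟨QuotientGroup.mk ⟨x, hy⟩, rfl⟩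
  have h1 := main_relL p (Nat.card α.ker) (fun T _ => SY p (Nat.card Z) T)
    (fun T T' _ _ h h' => SY.iso T T' h h') (fun T _ h => SY.simple T h)
    (fun T _ h => SY.types hpc hcc T h) W W₀ ω K
    (fun H _ _ τ h1 h2 h3 => hbase H τ h1 h2 (h3.trans hcc) fun h' => hpc (h'.trans h3))
    _ (E ⧸ R) (E ⧸ Z) α β le_rfl hαs hβs hαc hcomp dvd_rfl
  have h2 : ω.comp π = ((ω.comp β).comp α).comp (QuotientGroup.mk' R) := rfl
  rw [h2]
  exact Pool.Agent.TH444.TW.RSK.comp h1 (rsk_step _ (step_pgroup R hRp) K)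

theorem CentralKernelL.rsk {p : ℕ} [Fact p.Prime] {E W : Type} [Group E] [Group W] {π : E →* W}
    (h : CentralKernelL p π) (K : Type) [Field K] [CharP K p] : RSK K π := by
  obtain ⟨hfin, hs, P, Z, hP, hZ, h1, h2, h3, h4, h5, h6⟩ := h
  have hW : Finite W := Finite.of_surjective π hs
  refine rsk_mainY p (MonoidHom.id W) π hs P Z h1 h2 h3 h4
    (compIn_mono (fun T _ h => FactorY.toSY T h) h6) K ?_
  intro H _ _ τ k1 k2 k3 k4
  refine rsk_coprime (p := p) τ k1 k2 ?_ K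
  rw [Nat.coprime_iff_gcd_eq_one]
  by_contra hne
  obtain ⟨l, hl, hd⟩ := Nat.exists_prime_and_dvd hne
  have e1 := hd.trans (Nat.gcd_dvd_left _ _)
  have e2 := hd.trans (Nat.gcd_dvd_right _ _)
  have e3 := h5 l hl (e1.trans k3) e2
  rw [e3] at e1
  exact k4 e1


/-- The absolute case. -/
theorem goodG_centralL {p : ℕ} [hp : Fact p.Prime] (G : Type) [Group G] [Finite G]
    (P Z N : Subgroup G) [P.Normal] [Z.Normal] [N.Normal] (hPZ : P ≤ Z) (hZN : Z ≤ N)
    (hP : IsPGroup p P) (hcen : ∀ z ∈ Z, ∀ g : G, z * g * z⁻¹ * g⁻¹ ∈ P)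
    (hab : ∀ a b : G, a * b * a⁻¹ * b⁻¹ ∈ N)
    (h : CompIn (FactorY p (Nat.card Z)) (N ⧸ Z.subgroupOf N)) : GoodG p G := by
  refine ⟨inferInstance, fun K _ _ => ?_⟩
  have hker : (QuotientGroup.mk' N).ker = N := QuotientGroup.ker_mk' N
  have h1 : CompIn (SY p (Nat.card Z))
      ((QuotientGroup.mk' N).ker ⧸ Z.subgroupOf (QuotientGroup.mk' N).ker) := by
    rw [hker]
    exact compIn_mono (fun T _ h => FactorY.toSY T h) h
  refine rsk_mainY p (1 : (G ⧸ N) →* Unit) (QuotientGroup.mk' N) (QuotientGroup.mk'_surjective N)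
    P Z hPZ (by rwa [hker]) hP hcen h1 K ?_
  intro H _ _ τ k1 k2 k3 k4
  have hgood : GoodG p H := by
    refine goodG_class_two _ H le_rfl fun a b => k2 ?_
    rw [MonoidHom.mem_ker, map_commutatorElement, commutatorElement_eq_one_iff_mul_comm]
    obtain ⟨x, hx⟩ := QuotientGroup.mk_surjective (τ a)
    obtain ⟨y, hy⟩ := QuotientGroup.mk_surjective (τ b)
    rw [← hx, ← hy, ← QuotientGroup.mk_mul, ← QuotientGroup.mk_mul]
    refine (QuotientGroup.eq_iff_div_mem).2 ?_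
    rw [div_eq_mul_inv, mul_inv_rev, ← mul_assoc]
    exact hab x y
  exact hgood.2 K

theorem CentralGroupL.good {p : ℕ} [hp : Fact p.Prime] (G : Type) [Group G]
    (h : CentralGroupL p G) : GoodG p G := by
  obtain ⟨hfin, P, Z, N, iP, iZ, iN, h1, h2, h3, h4, h5, h6⟩ := h
  exact goodG_centralL G P Z N h1 h2 h3 h4 h5 h6


variable {K : Type} [Field K]

theorem StepL.main (p : ℕ) [Fact p.Prime] {W W' : Type} [Group W] [Group W']
    {π : W' →* W} (h : StepL p π) : Finite W → Finite W' ∧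
      ∀ (K : Type) [Field K] [CharP K p], RSK K π := by
  induction h with
  | base π h =>
    intro hW
    exact ⟨((h.toA p (ZMod p)).main p hW).1, fun K _ _ => ((h.toA p K).main p hW).2⟩
  | kernel π hs hfin h =>
    intro hW
    have hW' : Finite _ := Pool.Agent.TH444.TW.finite_of_ker π
    exact ⟨hW', fun K _ _ =>
      rsk_kernelL π hs (compIn_mono (fun T _ h => FactorL.old p T h) h) K⟩
  | lie π h =>
    intro hW
    exact ⟨(h.rsk (ZMod p)).1, fun K _ _ => (h.rsk K).2⟩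
  | central π h =>
    intro hW
    exact ⟨h.1, fun K _ _ => h.rsk K⟩
  | comp π q hp hq ihp ihq =>
    intro hW
    obtain ⟨h1, h2⟩ := ihp hW
    obtain ⟨h3, h4⟩ := ihq h1
    exact ⟨h3, fun K _ _ => RSK.comp (h2 K) (h4 K)⟩
  | quot π q hq hpq ih =>
    intro hW
    obtain ⟨h1, h2⟩ := ih hW
    exact ⟨Finite.of_surjective q hq, fun K _ _ => RSK.quot q hq (fun x => rfl) (h2 K)⟩

theorem BuiltL.good {p : ℕ} [hp : Fact p.Prime] {G : Type} [Group G]
    (h : BuiltL p G) : GoodG p G := by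
  induction h with
  | group G h => exact CentralGroupL.good G h
  | step π h hG ih =>
    obtain ⟨hfin, h2⟩ := h.main p ih.1
    exact GoodG.step π h2 ih
  | quot q hq hG ih => exact GoodG.quot q hq ih

/-- Finite embedding problems. -/
theorem stepL_one (p : ℕ) [Fact p.Prime] (K L X : Type) [Field K] [CharP K p] [Field L]
    [Algebra K L] [FiniteDimensional K L] [IsGalois K L] [Group X] (α : X →* (L ≃ₐ[K] L))
    (h : StepL p α) : Finite X ∧ RegSol K L X α := by
  obtain ⟨h1, h2⟩ := h.main p inferInstance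
  refine ⟨h1, ?_⟩
  have h3 := (h2 K).all L (MulEquiv.refl _)
  exact h3

theorem towerL_finite (p : ℕ) [Fact p.Prime] (W : ℕ → Type) [∀ i, Group (W i)]
    (π : ∀ i, W (i + 1) →* W i) (hp : ∀ i, StepL p (π i)) (h0 : Finite (W 0)) :
    ∀ i, Finite (W i) := by
  intro i
  induction i with
  | zero => exact h0
  | succ i ih => exact ((hp i).main p ih).1

/-- Towers over fields with the specialisation property. -/
theorem stepL_spec (p : ℕ) [Fact p.Prime] {K : Type} [Field K] [CharP K p] [Infinite K]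
    (hK : Pool.Agent.TH377.IG.SpecProp K)
    (W : ℕ → Type) [∀ i, Group (W i)] (π : ∀ i, W (i + 1) →* W i) (hp : ∀ i, StepL p (π i))
    (L : Type) [Field L] [Algebra K L] [FiniteDimensional K L] [IsGalois K L]
    (e₀ : W 0 ≃* (L ≃ₐ[K] L)) :
    ∃ (F : Type) (_ : Field F) (_ : Algebra K F) (_ : Algebra L F) (_ : IsScalarTower K L F)
      (_ : IsGalois K F) (γ : (F ≃ₐ[K] F) ≃* Lim π),
      (∀ i, IsOpen {σ : F ≃ₐ[K] F | (γ σ).1 i = 1}) ∧
      ∀ (σ : F ≃ₐ[K] F) (x : L),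
        σ (algebraMap L F x) = algebraMap L F (e₀ ((γ σ).1 0) x) := by
  have hfin := towerL_finite p W π hp (Finite.of_equiv _ e₀.symm.toEquiv)
  exact Pool.Agent.TH377.IG.tower_spec hK W π
    (fun i M _ _ _ _ ε => ((hp i).main p (hfin i)).2 K K M ε) L e₀

/-- Towers over rational function fields over finite fields. -/
theorem stepL_ratFunc (p : ℕ) [Fact p.Prime] (κ : Type) [Field κ] [Finite κ] [CharP κ p]
    (W : ℕ → Type) [∀ i, Group (W i)] (π : ∀ i, W (i + 1) →* W i)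
    (hp : ∀ i, StepL p (π i))
    (L : Type) [Field L] [Algebra (RatFunc κ) L] [FiniteDimensional (RatFunc κ) L]
    [IsGalois (RatFunc κ) L] (e₀ : W 0 ≃* (L ≃ₐ[RatFunc κ] L)) :
    ∃ (F : Type) (_ : Field F) (_ : Algebra (RatFunc κ) F) (_ : Algebra L F)
      (_ : IsScalarTower (RatFunc κ) L F) (_ : IsGalois (RatFunc κ) F)
      (γ : (F ≃ₐ[RatFunc κ] F) ≃* Lim π),
      (∀ i, IsOpen {σ : F ≃ₐ[RatFunc κ] F | (γ σ).1 i = 1}) ∧
      ∀ (σ : F ≃ₐ[RatFunc κ] F) (x : L),
        σ (algebraMap L F x) = algebraMap L F (e₀ ((γ σ).1 0) x) := by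
  have := infinite_ratFunc κ
  have := Pool.Agent.Y60.DC.charP_ratFunc κ p
  exact stepL_spec p (Pool.Agent.TH377.IG.spec_ratFunc κ) W π hp L e₀

/-- Proper solutions over fields with the specialisation property. -/
theorem stepL_proper (p : ℕ) [Fact p.Prime] {K : Type} [Field K] [CharP K p]
    (hK : Pool.Agent.TH377.IG.SpecProp K) (L X : Type) [Field L]
    [Algebra K L] [FiniteDimensional K L] [IsGalois K L] [Group X] (α : X →* (L ≃ₐ[K] L))
    (h : StepL p α) :
    ∃ (F : Type) (_ : Field F) (_ : Algebra K F) (_ : Algebra L F)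
          (_ : IsScalarTower K L F),
          FiniteDimensional K F ∧ IsGalois K F ∧
          ∃ γ : (F ≃ₐ[K] F) ≃* X, ∀ σ : F ≃ₐ[K] F, α (γ σ) = σ.restrictNormal L := by
  obtain ⟨h1, F, i1, i2, i3, i4, i5, i6, i7, i8, γ, hγ, -⟩ := stepL_one p K L X α h
  exact hK L X α ⟨F, i1, i2, i3, i4, i5, i6, i7, i8, γ, hγ⟩

theorem extendL {p : ℕ} [Fact p.Prime] (κ : Type) [Field κ] [Finite κ] [CharP κ p]
    (G G' : Type) [Group G] [Group G'] (π : G' →* G) (h : StepL p π)
    (hq : Pool.Agent.K7.H53.MA.Occurs (RatFunc κ) G) :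
    Pool.Agent.K7.H53.MA.Occurs (RatFunc κ) G' := by
  obtain ⟨L, i1, i2, i3, i4, ⟨e⟩⟩ := hq
  have := Pool.Agent.Y60.DC.charP_ratFunc κ p
  have hG : Finite G := Finite.of_equiv _ e.toEquiv
  obtain ⟨hfin, hR0⟩ := h.main p hG
  let α : G' →* (L ≃ₐ[RatFunc κ] L) := e.symm.toMonoidHom.comp π
  have hR : RegSol (RatFunc κ) L G' α := (hR0 (RatFunc κ)).all L e
  obtain ⟨F, i1, i2, i3, i4, i5, i6, i7, i8, γ, hγ, -⟩ := hR
  obtain ⟨F', j1, j2, -, -, j5, j6, γ', -⟩ := Pool.Agent.TH377.IG.spec_ratFunc κ L G' α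
    ⟨F, i1, i2, i3, i4, i5, i6, i7, i8, γ, hγ⟩
  exact ⟨F', j1, j2, j5, j6, ⟨γ'⟩⟩

end Pool.Agent.K7.H53.LD
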