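import Pool.Agent.K7.H53.LD.Out

/-!
# The groups `G(F)` of rational group schemes
-/

set_option autoImplicit false

open TensorProduct

namespace Pool.Agent.K7.H53.LD

open Pool.Agent.H391R2 (Wr wr_mul_left wr_mul_right)
open Pool.Agent.H391R2.T4 (RegSol)
open Pool.Agent.TH444.TW (RSK)
open Pool.Agent.Y60.DCF (IsSection ConjTo)

section frob

variable {p : ℕ} [hp : Fact p.Prime]

/-- The Frobenius map of an algebra over the prime field. -/
noncomputable def frobA (p : ℕ) [Fact p.Prime] (A : Type) [CommRing A] [Nontrivial A]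
    [Algebra (ZMod p) A] : A →ₐ[ZMod p] A :=
  have : CharP A p := charP_of_injective_algebraMap (algebraMap (ZMod p) A).injective p
  { toRingHom := frobenius A p
    commutes' := fun r => by
      change (algebraMap (ZMod p) A r) ^ p = algebraMap (ZMod p) A r
      rw [← map_pow, ZMod.pow_card] }

theorem frobA_apply (A : Type) [CommRing A] [Nontrivial A] [Algebra (ZMod p) A] (a : A) :
    frobA p A a = a ^ p := rfl

theorem isEndo_frob (A : Type) [CommRing A] [Nontrivial A] [HopfAlgebra (ZMod p) A] :
    IsEndo (frobA p A) := by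
  apply AlgHom.ext
  intro a
  change Bialgebra.comulAlgHom (ZMod p) A (a ^ p) =
    Algebra.TensorProduct.map (frobA p A) (frobA p A) (Bialgebra.comulAlgHom (ZMod p) A a)
  rw [map_pow]
  have h : ∀ z : A ⊗[ZMod p] A, z ^ p =
      Algebra.TensorProduct.map (frobA p A) (frobA p A) z := by
    have hc : CharP (A ⊗[ZMod p] A) p :=
      charP_of_injective_algebraMap (algebraMap (ZMod p) (A ⊗[ZMod p] A)).injective p
    intro z
    induction z using TensorProduct.induction_on with
    | zero => rw [zero_pow hp.out.ne_zero, map_zero]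
    | tmul x y =>
      rw [Algebra.TensorProduct.tmul_pow, Algebra.TensorProduct.map_tmul, frobA_apply, frobA_apply]
    | add x y hx hy => rw [add_pow_char, hx, hy, map_add]
  exact h _

/-- The Frobenius automorphism of a finite field. -/
noncomputable def frobF (p : ℕ) [Fact p.Prime] (F : Type) [Field F] [Finite F]
    [Algebra (ZMod p) F] : F ≃ₐ[ZMod p] F :=
  AlgEquiv.ofBijective (frobA p F)
    (Finite.injective_iff_bijective.1 (frobA p F).toRingHom.injective)

theorem frobF_apply (F : Type) [Field F] [Finite F] [Algebra (ZMod p) F] (r : F) :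
    frobF p F r = r ^ p := rfl

end frob

/-- The group of all points with values in a finite field, with the action of the automorphisms of the
field. -/
theorem geometric_points {p : ℕ} [hp : Fact p.Prime] {A F N B I : Type} [CommRing A] [IsDomain A]
    [HopfAlgebra (ZMod p) A] [Algebra.FiniteType (ZMod p) A] [Field F] [Finite F]
    [Algebra (ZMod p) F] [Group N] [Group B] [Finite I] (x : I → FractionRing A)
    (hx : Rational (ZMod p) x) (τ : N → (A →ₐ[ZMod p] F)) (hτ : Function.Bijective τ)
    (hm : ∀ n n' : N, τ (n * n') = mulPt (τ n) (τ n')) (c : B →* MulAut N)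
    (ψ : B →* (F ≃ₐ[ZMod p] F)) (hc : ∀ b n a, τ (c b n) a = ψ b (τ n a)) : Geometric p c := by
  refine ⟨A, inferInstance, inferInstance, inferInstance, F, inferInstance, inferInstance, I, x,
    frobA p A, frobF p F, τ, 1, ψ, inferInstance, inferInstance, inferInstance, inferInstance, hx,
    ⟨isEndo_frob A, 1, fun a => rfl, fun r => rfl⟩, ⟨hτ.1, hm, fun t => ⟨fun _ a => ?_,
      fun _ => hτ.2 t⟩⟩, fun b => ⟨⟨?_, fun a => rfl, ⟨RingEquiv.refl _, fun a => rfl, fun j =>
      Submodule.subset_span ⟨j, rfl⟩⟩⟩, fun r => ?_, fun n a => hc b n a⟩⟩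
  · rw [frobA_apply, frobF_apply, map_pow]
  · apply AlgHom.ext
    intro a
    have h1 : (((1 : B →* (A ≃ₐ[ZMod p] A)) b : A ≃ₐ[ZMod p] A) : A →ₐ[ZMod p] A) =
      AlgHom.id (ZMod p) A := rfl
    rw [h1, Algebra.TensorProduct.map_id]
    rfl
  · rw [frobF_apply, frobF_apply, map_pow]

/-- The semidirect product as an epimorphism of the class `LieStep`. -/
theorem lieStep_sd {p : ℕ} [Fact p.Prime] {N B W : Type} [Group N] [Group B] [Group W]
    {c : B →* MulAut N} (h : Geometric p c) (β : W →* B) (χ : W →* MulAut N)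
    (hχ : ∀ w, χ w = c (β w)) :
    LieStep p (SemidirectProduct.rightHom : N ⋊[χ] W →* W) := by
  let ψ : W →* Wr B 1 :=
    { toFun := fun w => ⟨fun _ => β w, 1⟩
      map_one' := by
        refine SemidirectProduct.ext ?_ rfl
        funext i
        exact map_one β
      map_mul' := fun w w' => by
        refine SemidirectProduct.ext ?_ ?_
        · funext i
          rw [wr_mul_left]
          exact map_mul β w w'
        · rw [wr_mul_right, mul_one] }
  let ι : (SemidirectProduct.rightHom : N ⋊[χ] W →* W).ker ≃* (Fin 1 → N) :=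
    { toFun := fun x _ => (x : N ⋊[χ] W).left
      invFun := fun y => ⟨SemidirectProduct.inl (y 0), by
        rw [MonoidHom.mem_ker]
        rfl⟩
      left_inv := fun x => by
        apply Subtype.ext
        refine SemidirectProduct.ext rfl ?_
        exact (MonoidHom.mem_ker.1 x.2).symm
      right_inv := fun y => by
        funext i
        rw [Subsingleton.elim i 0]
        rfl
      map_mul' := fun x y => by
        funext i
        change (x : N ⋊[χ] W).left * χ (x : N ⋊[χ] W).right (y : N ⋊[χ] W).left =
          (x : N ⋊[χ] W).left * (y : N ⋊[χ] W).left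
        have h1 : (x : N ⋊[χ] W).right = 1 := MonoidHom.mem_ker.1 x.2
        rw [h1, map_one]
        rfl }
  refine ⟨N, B, inferInstance, inferInstance, c, 1, ψ, ι, SemidirectProduct.inr, h,
    fun w => SemidirectProduct.rightHom_inr w, fun w x y hxy => ?_⟩
  funext i
  change (y : N ⋊[χ] W).left = c (β w) ((x : N ⋊[χ] W).left)
  have h2 : (y : N ⋊[χ] W) = SemidirectProduct.inr w * (x : N ⋊[χ] W) *
    (SemidirectProduct.inr w)⁻¹ := hxy
  have h3 : (x : N ⋊[χ] W) = SemidirectProduct.inl (x : N ⋊[χ] W).left :=
    SemidirectProduct.ext rfl (MonoidHom.mem_ker.1 x.2)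
  have h4 := SemidirectProduct.inl_aut (φ := χ) w (x : N ⋊[χ] W).left
  rw [← map_inv, h3] at h2
  rw [map_inv] at h2
  rw [map_inv, ← h2, hχ] at h4
  rw [← h4]
  rfl

end Pool.Agent.K7.H53.LD
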