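import Pool.Agent.K7.H53.LD.Gen

/-!
# The simple groups of the theorem
-/

set_option autoImplicit false
set_option linter.unusedSectionVars false

namespace Pool.Agent.K7.H53.LD

open Pool.Agent.K7.H53.CE
open Pool.Agent.H391R2.T4 (RegSol)
open Pool.Agent.TH444.TW (LocK RSK)
open Pool.Agent.Y60.DC (CompIn conj_iso center_iso)
open Pool.Agent.Y60.DCF (IsComplInn center_bot compIn_mono)

theorem IsCover.iso {p : ℕ} {N T T' : Type} [Group N] [Group T] [Group T'] (e : T ≃* T')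
    {π : N →* T} (h : IsCover p π) : IsCover p ((e : T →* T').comp π) := by
  obtain ⟨h1, h2, h3, h4, h5⟩ := h
  have hk : ((e : T →* T').comp π).ker = π.ker := by
    ext x
    rw [MonoidHom.mem_ker, MonoidHom.mem_ker]
    exact map_eq_one_iff e e.injective
  refine ⟨e.surjective.comp h1, h2, by rwa [hk], by rwa [hk], ?_⟩
  intro M _ _ f hf hfc hfk
  have hk' : ((e.symm : T' →* T).comp f).ker = f.ker := by
    ext x
    rw [MonoidHom.mem_ker, MonoidHom.mem_ker]
    exact map_eq_one_iff e.symm e.symm.injective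
  obtain ⟨φ, hφ⟩ := h5 M ((e.symm : T' →* T).comp f) (e.symm.surjective.comp hf)
    (by rwa [hk']) (by rwa [hk'])
  refine ⟨φ, fun n => ?_⟩
  have h6 : e.symm (f (φ n)) = π n := hφ n
  change f (φ n) = e (π n)
  rw [← h6, e.apply_symm_apply]

theorem IsCover.isCov {p : ℕ} {N T : Type} [Group N] [Group T] {π : N →* T}
    (h : IsCover p π) : IsCov (fun d => ¬ p ∣ d) π where
  surj := h.1
  perf := h.2.1
  cen := h.2.2.1
  ker := h.2.2.2.1
  lift := h.2.2.2.2

theorem complInn_iso {C T T' : Type} [Group C] [Group T] [Group T'] (e : T ≃* T')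
    {c : C →* MulAut T} (h : IsComplInn c) :
    IsComplInn (((MulAut.congr e : MulAut T ≃* MulAut T') : MulAut T →* MulAut T').comp c) := by
  obtain ⟨hc, hT⟩ := h
  let E : MulAut T ≃* MulAut T' := MulAut.congr e
  refine ⟨E.injective.comp hc, ?_⟩
  have h2 : ((E : MulAut T →* MulAut T').comp c).range =
      c.range.map (E : MulAut T →* MulAut T') := by rw [MonoidHom.range_comp]
  have h3 : (MulAut.conj : T' →* MulAut T').range =
      (MulAut.conj : T →* MulAut T).range.map (E : MulAut T →* MulAut T') := by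
    rw [← MonoidHom.range_comp]
    have h4 := conj_iso e
    have h5 : ((MulAut.conj : T' →* MulAut T').comp (e : T →* T')).range =
        (MulAut.conj : T' →* MulAut T').range := by
      rw [MonoidHom.range_comp, MonoidHom.range_eq_top.2 e.surjective, ← MonoidHom.range_eq_map]
    rw [← h5, ← h4]
  rw [h2, h3]
  exact (E.mapSubgroup : Subgroup (MulAut T) ≃o Subgroup (MulAut T')).isCompl hT

theorem IsLieCover.iso {p : ℕ} [Fact p.Prime] {T T' : Type} [Group T] [Group T'] (e : T ≃* T')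
    (h : IsLieCover p T) : IsLieCover p T' := by
  obtain ⟨N, iN, π, C, iC, c, d, hπ, hc, hg, hd⟩ := h
  refine ⟨N, iN, (e : T →* T').comp π, C, iC,
    ((MulAut.congr e : MulAut T ≃* MulAut T') : MulAut T →* MulAut T').comp c, d,
    hπ.iso e, complInn_iso e hc, hg, fun b n => ?_⟩
  change e (π (d b n)) = e (c b (e.symm (e (π n))))
  rw [e.symm_apply_apply, hd]

theorem IsLieCover.tyM {p c : ℕ} [Fact p.Prime] {T : Type} [Group T] (hs : IsSimpleGroup T)
    (hab : ∃ a b : T, a * b ≠ b * a) (hpc : ¬ p ∣ c) (h : IsLieCover p T) : TyM p c T := by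
  obtain ⟨N, iN, π, C, iC, χ, d, hπ, ⟨hχ, hT⟩, hg, hd⟩ := h
  have hfinN := hg.finite
  have hcov := hπ.isCov
  have hcen := center_bot hs hab
  have hIn := inner_normal' T
  obtain ⟨ε, hε2, hε1, hε3, hε4⟩ := exists_retC ((MulAut.conj : T →* MulAut T).range) χ.range hT
  obtain ⟨L, hL⟩ := hcov.exists_aut
  refine ⟨Finite.of_surjective π hπ.1, hcen, Pool.Agent.Y60.DC.indec_of_simple _ hcen,
    hs.toNontrivial, ε, hε2, hε1, hε3, (fun n => ¬ p ∣ n), N, iN, π, L, hfinN, hcov,
    fun a b hab hb h => hb (h.trans hab), hpc, hL, ?_⟩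
  intro K _ _ K' M' _ _ _ _ _ _ _ β
  let E : C ≃* χ.range := MonoidHom.ofInjective hχ
  have hr : ∀ x : ε.range, (x : MulAut T) ∈ χ.range := by
    rintro ⟨_, a, rfl⟩
    exact hε4 a
  let j : ε.range →* χ.range := ε.range.subtype.codRestrict χ.range hr
  let b : (M' ≃ₐ[K'] M') →* C := E.symm.toMonoidHom.comp (j.comp β)
  have hb : ∀ γ, χ (b γ) = (β γ : MulAut T) := fun γ => by
    have h2 : E (b γ) = j (β γ) := E.apply_symm_apply _
    exact congrArg Subtype.val h2
  have h3 : (L.comp ε.range.subtype).comp β = d.comp b := by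
    apply MonoidHom.ext
    intro γ
    apply MulEquiv.ext
    intro n
    have h4 : (L (β γ : MulAut T)).toMonoidHom = (d (b γ)).toMonoidHom := by
      refine hcov.unique fun t => ?_
      change π (L (β γ : MulAut T) t) = π (d (b γ) t)
      rw [hL, hd, hb]
    exact DFunLike.congr_fun h4 n
  rw [h3]
  exact hg.locK K K' M' b

/-- The class of simple groups (internal form). -/
def SY (p c : ℕ) [Fact p.Prime] (T : Type) [Group T] : Prop :=
  SF p c T ∨ (FacL p T ∧ (∃ a b : T, a * b ≠ b * a) ∧ NoCover p T) ∨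
    (IsSimpleGroup T ∧ (∃ a b : T, a * b ≠ b * a) ∧ IsLieCover p T)

theorem FactorY.toSY {p c : ℕ} [Fact p.Prime] (T : Type) [Group T] (h : FactorY p c T) :
    SY p c T := by
  rcases h with h | ⟨h1, h2, h3⟩ | h
  · exact Or.inl (FactorZ.toSF T h)
  · exact Or.inr (Or.inl ⟨FactorL.old p T h1, h2, h3⟩)
  · exact Or.inr (Or.inr h)

theorem noncomm_iso {T T' : Type} [Group T] [Group T'] (e : T ≃* T')
    (h : ∃ a b : T, a * b ≠ b * a) : ∃ a b : T', a * b ≠ b * a := by
  obtain ⟨a, b, h⟩ := h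
  refine ⟨e a, e b, fun h' => h (e.injective ?_)⟩
  rw [map_mul, map_mul, h']

theorem SY.iso {p c : ℕ} [Fact p.Prime] (T T' : Type) [Group T] [Group T']
    (e : Nonempty (T ≃* T')) (h : SY p c T) : SY p c T' := by
  have e' := e
  obtain ⟨e⟩ := e
  rcases h with h | ⟨h1, h2, h3⟩ | ⟨h1, h2, h3⟩
  · exact Or.inl (SF.iso T T' e' h)
  · exact Or.inr (Or.inl ⟨FacL.iso p T T' e' h1, noncomm_iso e h2, h3.iso e⟩)
  · exact Or.inr (Or.inr ⟨e.symm.isSimpleGroup, noncomm_iso e h2, h3.iso e⟩)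

theorem SY.simple {p c : ℕ} [Fact p.Prime] (T : Type) [Group T] (h : SY p c T) :
    IsSimpleGroup T := by
  rcases h with h | ⟨h1, h2, h3⟩ | ⟨h1, h2, h3⟩
  · exact SF.simple T h
  · exact FacL.simple p T h1
  · exact h1

theorem tyL_nocover (p : ℕ) [hp : Fact p.Prime] (c : ℕ) (hc0 : ¬ p ∣ c) (T : Type) [Group T]
    (h : FacL p T) (hab : ∃ a b : T, a * b ≠ b * a) (hno : NoCover p T) : TyL p c T := by
  have hfin : Finite T := by
    rcases FacL.good p T h with h1 | h1
    · exact (Nat.card_pos_iff.1 (by rw [h1]; exact hp.out.pos)).2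
    · exact h1.1
  refine ⟨hfin, perfect_of_simple (FacL.simple p T h) hab, h, ?_⟩
  intro M _ _ f hs hc hk
  exact hno M f hs hc fun h' => hc0 (h'.trans hk)

theorem SY.types {p c c' : ℕ} [hp : Fact p.Prime] (hc : ¬ p ∣ c) (hcc : c ∣ c') (T : Type)
    [Group T] (h : SY p c' T) : Nat.card T = p ∨ ∃ (T₁ : Type) (_ : Group T₁),
      Nonempty (T ≃* T₁) ∧ (TyL p c T₁ ∨ TyM p c T₁) := by
  rcases h with h | ⟨h1, h2, h3⟩ | ⟨h1, h2, h3⟩
  · rcases SF.types hc hcc T h with h | ⟨T₁, i1, e, h | h⟩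
    · exact Or.inl h
    · exact Or.inr ⟨T₁, i1, e, Or.inl h.toL⟩
    · exact Or.inr ⟨T₁, i1, e, Or.inr h.toM⟩
  · exact Or.inr ⟨T, inferInstance, ⟨MulEquiv.refl T⟩, Or.inl (tyL_nocover p c hc T h1 h2 h3)⟩
  · exact Or.inr ⟨T, inferInstance, ⟨MulEquiv.refl T⟩, Or.inr (h3.tyM h1 h2 hc)⟩

end Pool.Agent.K7.H53.LD
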